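import Pool.Agent.P.MP_7cb106_nt.BC.Iface

/-! Step COEF. -/

set_option autoImplicit false

namespace Pool.Agent.P.MP_7cb106_nt.BC

open Polynomial

lemma coef_dec {p : ℕ} {V R W : Type} [CommRing V] [CommRing R] [CommRing W] {nv : V → ℝ}
    (f : V →+* R) (τ : R →* W) {s t : ℝ} (hv : VA nv) (h0 : 0 < s) (ht : 0 ≤ t) {z : W}
    (hz : z ∈ SS p (fun c => τ (f c)) nv s t) : ∃ c w z2, nv c ≤ t ∧
      z2 ∈ SS p (fun c => τ (f c)) nv s (t / s) ∧ z = τ (f c) * w + p * z2 := by
  have n0 : nv 0 ≤ t := ((hv.eq_zero 0).2 rfl).trans_le ht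
  induction hz using AddSubgroup.closure_induction with
  | mem z hz =>
    obtain ⟨i, c, w, h1, rfl⟩ := hz
    rcases i with _ | i
    · exact ⟨c, w, 0, by simpa using h1, zero_mem _, by simp⟩
    · refine ⟨0, 0, p ^ i * τ (f c) * w, n0, AddSubgroup.subset_closure ⟨i, c, w, ?_, rfl⟩,
        by ring⟩
      rw [le_div_iff₀ h0, mul_right_comm, ← pow_succ]
      exact h1
  | zero => exact ⟨0, 0, 0, n0, zero_mem _, by simp⟩
  | add x y _ _ hx hy =>
    obtain ⟨c, w, z, h1, h2, rfl⟩ := hx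
    obtain ⟨c', w', z', h1', h2', rfl⟩ := hy
    rcases le_total (nv c) (nv c') with h | h
    · obtain ⟨e, rfl⟩ := hv.dvd _ _ h
      exact ⟨c', τ (f e) * w + w', z + z', h1', add_mem h2 h2', by rw [map_mul, map_mul]; ring⟩
    · obtain ⟨e, rfl⟩ := hv.dvd _ _ h
      exact ⟨c, w + τ (f e) * w', z + z', h1, add_mem h2 h2', by rw [map_mul, map_mul]; ring⟩
  | neg x _ hx =>
    obtain ⟨c, w, z, h1, h2, rfl⟩ := hx
    exact ⟨c, -w, -z, h1, neg_mem h2, by ring⟩

theorem p_COEF :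
    S_COEF := by
  intro p V R W _ _ _ nv f τ T0 sh s hv hp h0 h1 i
  have key : ∀ (t : ℝ) (z : W), 0 ≤ t → z ∈ SS p (fun c => τ (f c)) nv s t →
      (∃ c w, nv c ≤ t ∧ T0 z = f c * w) ∧ sh z ∈ SS p (fun c => τ (f c)) nv s (t / s) := by
    intro t z ht hz
    obtain ⟨c, w, z2, k1, k2, e⟩ := coef_dec f τ hv h0 ht hz
    have k3 := hp.uniq (x := z) (c := f c * T0 w) (y := τ (f c) * sh w + z2) (by
      rw [e, map_mul]
      conv_lhs => rw [hp.dec w]
      ring)
    refine ⟨⟨c, _, k1, k3.1⟩, k3.2 ▸ add_mem (AddSubgroup.subset_closure ⟨0, c, sh w, ?_, by simp⟩)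
      k2⟩
    rw [pow_zero, one_mul]
    exact k1.trans (le_div_self ht h0 h1)
  induction i with
  | zero =>
    intro t z ht hz
    simpa using (key t z ht hz).1
  | succ i ih =>
    intro t z ht hz
    obtain ⟨c, w, k1, k2⟩ := ih (t / s) (sh z) (div_nonneg ht h0.le) (key t z ht hz).2
    refine ⟨c, w, ?_, by rw [Function.iterate_succ_apply, k2]⟩
    rwa [le_div_iff₀ h0, mul_right_comm, ← pow_succ] at k1

end Pool.Agent.P.MP_7cb106_nt.BC

/-! Step BET2. -/

set_option autoImplicit false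

namespace Pool.Agent.P.MP_7cb106_nt.BC

open Polynomial

theorem bet2_pow {L : Type} [NormedField L] [IsUltrametricDist L] {u : L} (hu : ‖u‖ ≤ 1) (m : ℕ) :
    ‖(1 + u) ^ m - 1 - m * u‖ ≤ ‖u‖ ^ 2 := by
  induction m with
  | zero => simp
  | succ m ih =>
    have e : (1 + u) ^ (m + 1) - 1 - ((m + 1 : ℕ) : L) * u =
        (1 + u) * ((1 + u) ^ m - 1 - m * u) + m * u ^ 2 := by push_cast; ring
    have h1 : ‖1 + u‖ ≤ 1 :=
      (IsUltrametricDist.norm_add_le_max _ _).trans (max_le norm_one.le hu)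
    have h2 : ‖(m : L)‖ ≤ 1 := IsUltrametricDist.norm_natCast_le_one L m
    rw [e]
    refine (IsUltrametricDist.norm_add_le_max _ _).trans (max_le ?_ ?_)
    · rw [norm_mul]
      exact (mul_le_of_le_one_left (norm_nonneg _) h1).trans ih
    · rw [norm_mul, norm_pow]
      exact mul_le_of_le_one_left (by positivity) h2

theorem p_BET2 :
    S_BET2 := by
  intro p _ O L _ _ _ u s A s0 s1 hp hA hu h1 h2
  have p0 : (p : L) ≠ 0 := fun e => by rw [e, norm_zero] at hp; exact s0.ne hp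
  have k : ∀ n x, ‖u (n + 1) x - p * u n x‖ ≤ ‖u n x‖ ^ 2 := fun n x => by
    rw [hu]; exact bet2_pow (h1 n x) p
  have d : ∀ x n, dist (u n x / (p : L) ^ n) (u (n + 1) x / (p : L) ^ (n + 1)) ≤
      A ^ 2 / s * s ^ n := fun x n => by
    have e : u (n + 1) x / (p : L) ^ (n + 1) - u n x / (p : L) ^ n =
        (u (n + 1) x - p * u n x) / (p : L) ^ (n + 1) := by field_simp; ring
    rw [dist_comm, dist_eq_norm, e, norm_div, norm_pow, hp, div_le_iff₀ (by positivity)]
    refine (k n x).trans ((pow_le_pow_left₀ (norm_nonneg _) (h2 n x) 2).trans_eq ?_)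
    field_simp
    ring
  choose β hβ using fun x =>
    cauchySeq_tendsto_of_complete (cauchySeq_of_le_geometric s _ s1 (d x))
  have s2 : 0 < 1 - s := by linarith
  have hB : A ≤ A ^ 2 / s / (1 - s) := by
    rw [le_div_iff₀ s2, le_div_iff₀ s0]
    have : (1 - s) * s ≤ 1 := by nlinarith
    nlinarith
  have h3 : ∀ n x, ‖β x - u n x / (p : L) ^ n‖ ≤ A ^ 2 / s / (1 - s) * s ^ n := fun n x => by
    rw [← dist_eq_norm, dist_comm]
    exact (dist_le_of_le_geometric_of_tendsto s _ s1 (d x) (hβ x) n).trans_eq (by ring)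
  refine ⟨β, _, hB, h3, fun x => ?_, fun x hx => ?_⟩
  · have h4 := h3 0 x
    rw [pow_zero, pow_zero, div_one, mul_one] at h4
    rw [← sub_add_cancel (β x) (u 0 x)]
    exact (IsUltrametricDist.norm_add_le_max _ _).trans
      (max_le h4 ((h1 0 x).trans (hA.trans hB)))
  · obtain ⟨N, hN⟩ := exists_pow_lt_of_lt_one (show 0 < s / A by positivity) s1
    have h4 : ∀ n, N ≤ n → ‖u n x / (p : L) ^ n‖ = ‖u N x / (p : L) ^ N‖ := fun n hn => by
      induction n, hn using Nat.le_induction with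
      | base => rfl
      | succ n hn ih =>
        have a0 : 0 < ‖u n x‖ := norm_pos_iff.2 (hx n)
        have a1 : ‖u n x‖ < s := by
          have := (lt_div_iff₀ (by positivity)).1
            ((pow_le_pow_of_le_one s0.le s1.le hn).trans_lt hN)
          linarith [h2 n x]
        have a2 : ‖u (n + 1) x - p * u n x‖ < ‖(p : L) * u n x‖ := by
          rw [norm_mul, hp]
          refine (k n x).trans_lt ?_
          rw [sq]
          exact mul_lt_mul_of_pos_right a1 a0
        have a3 : ‖u (n + 1) x‖ = s * ‖u n x‖ := by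
          rw [← sub_add_cancel (u (n + 1) x) (p * u n x),
            IsUltrametricDist.norm_add_eq_max_of_norm_ne_norm a2.ne, max_eq_right a2.le,
            norm_mul, hp]
        rw [← ih, norm_div, norm_div, norm_pow, norm_pow, hp, a3]
        field_simp
        ring
    have h5 : ‖β x‖ = ‖u N x / (p : L) ^ N‖ :=
      tendsto_nhds_unique (hβ x).norm (tendsto_const_nhds.congr'
        (Filter.eventually_atTop.2 ⟨N, fun n hn => (h4 n hn).symm⟩))
    rw [← norm_ne_zero_iff, h5, norm_ne_zero_iff]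
    exact div_ne_zero (hx N) (pow_ne_zero _ p0)

end Pool.Agent.P.MP_7cb106_nt.BC

/-! Step BET3. -/

set_option autoImplicit false

namespace Pool.Agent.P.MP_7cb106_nt.BC

open Polynomial

theorem bet3_zero {L : Type} [NormedField L] {z : L} {s C : ℝ} (h0 : 0 < s) (h1 : s < 1)
    (h : ∀ n : ℕ, ‖z‖ ≤ C * s ^ n) : z = 0 := by
  have := (tendsto_pow_atTop_nhds_zero_of_lt_one h0.le h1).const_mul C
  rw [mul_zero] at this
  exact norm_le_zero_iff.1 (ge_of_tendsto' this h)

theorem p_BET3 (hNJ : S_NJ) :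
    S_BET3 := by
  intro p _ O W L _ _ _ _ _ U ι g s A β h0 h1 hp hg hL hU
  have A0 : 0 ≤ A := zero_le_one.trans hL.one_le
  have hadd : ∀ x y, β (x + y) = β x + β y := fun x y => by
    refine sub_eq_zero.1 (bet3_zero h0 h1 (C := 3 * A + A * A) fun n => ?_)
    have e : β (x + y) - (β x + β y) = (β (x + y) - ι (U n (x + y)) / (p : L) ^ n) -
        (β x - ι (U n x) / (p : L) ^ n) - (β y - ι (U n y) / (p : L) ^ n) +
        ι (U n x) * ι (U n y) / (p : L) ^ n := by
      rw [hU, map_add, map_add, map_mul]; ring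
    have sn : 0 < s ^ n := pow_pos h0 n
    have l : ‖ι (U n x) * ι (U n y) / (p : L) ^ n‖ ≤ A * A * s ^ n := by
      rw [norm_div, norm_mul, norm_pow, hp, div_le_iff₀ sn]
      calc _ ≤ (A * s ^ n) * (A * s ^ n) :=
            mul_le_mul (hL.small n x) (hL.small n y) (norm_nonneg _) (by positivity)
        _ = _ := by ring
    rw [e]
    refine (norm_add_le _ _).trans ?_
    have := (norm_sub_le _ _).trans (add_le_add ((norm_sub_le _ _).trans
      (add_le_add (hL.lim n (x + y)) (hL.lim n x))) (hL.lim n y))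
    linarith
  refine ⟨hadd, fun a x => ?_⟩
  refine sub_eq_zero.1 (bet3_zero h0 h1 (C := 2 * A) fun k => ?_)
  obtain ⟨b, hb⟩ := Ideal.mem_span_singleton.1 (PadicInt.appr_spec k a)
  have hn : ∀ (m : ℕ) y, β ((m : ℤ_[p]) • y) = m * β y := fun m y => by
    rw [Nat.cast_smul_eq_nsmul, ← nsmul_eq_mul]
    exact map_nsmul (AddMonoidHom.mk' β hadd) m y
  have e : β (a • x) - g a * β x = (p : L) ^ k * (β (b • x) - g b * β x) := by
    rw [sub_eq_iff_eq_add'.1 hb, add_smul, hadd, hn, mul_smul, ← Nat.cast_pow, hn, map_add,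
      map_mul, map_natCast, map_natCast, Nat.cast_pow]
    ring
  rw [e, norm_mul, norm_pow, hp, mul_comm]
  refine mul_le_mul_of_nonneg_right ((norm_sub_le _ _).trans ?_) (pow_pos h0 k).le
  rw [norm_mul]
  have := mul_le_mul (hg b) (hL.bdd x) (norm_nonneg _) zero_le_one
  linarith [hL.bdd (b • x)]

end Pool.Agent.P.MP_7cb106_nt.BC

/-! Step NV0. -/

set_option autoImplicit false

namespace Pool.Agent.P.MP_7cb106_nt.BC

open Polynomial

open nonZeroDivisors IntermediateField in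
theorem nv0_prim (A O : Type) [CommRing A] [IsDomain A] [CharZero A] [CommRing O] [IsDomain O]
    [Algebra A O] [Module.Finite A O] [FaithfulSMul A O] :
    ∃ θ : O, ∀ x : O, ∃ (b : A) (Q : A[X]), b ≠ 0 ∧ b • x = aeval θ Q := by
  let _ : Algebra (FractionRing A) (FractionRing O) := FractionRing.liftAlgebra A _
  have : FiniteDimensional (FractionRing A) (FractionRing O) := .of_isLocalization A O A⁰
  obtain ⟨α, hα⟩ := Field.exists_primitive_element (FractionRing A) (FractionRing O)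
  obtain ⟨a, b, hb, rfl⟩ := IsFractionRing.div_surjective O α
  have hb0 : b ≠ 0 := nonZeroDivisors.ne_zero hb
  obtain ⟨θ, d, hd, e⟩ := Algebra.IsAlgebraic.exists_smul_eq_mul A a hb0
  have hbK : algebraMap O (FractionRing O) b ≠ 0 :=
    (map_ne_zero_iff _ (IsFractionRing.injective O _)).2 hb0
  have hdK : algebraMap A (FractionRing A) d ≠ 0 :=
    (map_ne_zero_iff _ (IsFractionRing.injective A _)).2 hd
  have e1 : algebraMap O (FractionRing O) a / algebraMap O (FractionRing O) b =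
      (algebraMap A (FractionRing A) d)⁻¹ • algebraMap O (FractionRing O) θ := by
    rw [eq_inv_smul_iff₀ hdK, algebraMap_smul, ← smul_div_assoc, div_eq_iff hbK, ← map_mul,
      mul_comm, ← e, Algebra.smul_def, Algebra.smul_def, map_mul, ← IsScalarTower.algebraMap_apply]
  refine ⟨θ, fun x => ?_⟩
  have h1 : algebraMap O (FractionRing O) x ∈
      (FractionRing A)⟮algebraMap O (FractionRing O) θ⟯ := by
    have : (FractionRing A)⟮algebraMap O (FractionRing O) a / algebraMap O (FractionRing O) b⟯ ≤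
        (FractionRing A)⟮algebraMap O (FractionRing O) θ⟯ := by
      rw [adjoin_simple_le_iff, e1]
      exact IntermediateField.smul_mem _ (mem_adjoin_simple_self _ _)
    exact this (hα ▸ mem_top)
  rw [← mem_toSubalgebra,
    adjoin_simple_toSubalgebra_of_isAlgebraic (Algebra.IsAlgebraic.isAlgebraic _),
    Algebra.adjoin_singleton_eq_range_aeval] at h1
  obtain ⟨Q, hQ⟩ := h1
  obtain ⟨c, hc, h2⟩ := IsLocalization.integerNormalization_spec A⁰ Q
  refine ⟨c, IsLocalization.integerNormalization A⁰ Q, nonZeroDivisors.ne_zero hc,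
    IsFractionRing.injective O (FractionRing O) ?_⟩
  have h3 : aeval (algebraMap O (FractionRing O) θ) Q = algebraMap O (FractionRing O) x := hQ
  have h4 : algebraMap O (FractionRing O) (c • x) = c • algebraMap O (FractionRing O) x := by
    rw [Algebra.smul_def, Algebra.smul_def, map_mul, ← IsScalarTower.algebraMap_apply]
  rw [h4, ← aeval_algebraMap_apply, ← aeval_map_algebraMap (FractionRing A), h2,
    ← algebraMap_smul (FractionRing A) c Q, map_smul, h3, algebraMap_smul]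

theorem p_NV0 :
    S_NV0 := by
  intro p _ O _ _ _ _ _
  obtain ⟨θ, hθ⟩ := nv0_prim ℤ_[p] O
  let S : ℕ → Submodule ℤ_[p] O := fun n =>
    (LinearMap.range (aeval θ : ℤ_[p][X] →ₐ[ℤ_[p]] O).toLinearMap).comap
      (LinearMap.mulLeft ℤ_[p] ((p : O) ^ n))
  have hS : ∀ n x, x ∈ S n ↔ ∃ Q : ℤ_[p][X], (p : O) ^ n * x = aeval θ Q := fun n x =>
    ⟨fun ⟨Q, h⟩ => ⟨Q, h.symm⟩, fun ⟨Q, h⟩ => ⟨Q, h.symm⟩⟩
  have hm : Monotone S := monotone_nat_of_le_succ fun n x hx => by
    obtain ⟨Q, h⟩ := (hS n x).1 hx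
    exact (hS _ x).2 ⟨p * Q, by rw [map_mul, map_natCast, ← h, pow_succ', mul_assoc]⟩
  obtain ⟨N, hN⟩ := monotone_stabilizes_iff_noetherian.2 inferInstance ⟨S, hm⟩
  refine ⟨θ, N, fun x => (hS N x).1 ?_⟩
  obtain ⟨b, Q, hb, e⟩ := hθ x
  have h1 : x ∈ S b.valuation := by
    refine (hS _ x).2 ⟨C ((PadicInt.unitCoeff hb)⁻¹ : ℤ_[p]ˣ).val * Q, ?_⟩
    rw [map_mul, aeval_C, ← e, ← Algebra.smul_def, smul_smul]
    have h3 : ((PadicInt.unitCoeff hb)⁻¹ : ℤ_[p]ˣ).val * b = (p : ℤ_[p]) ^ b.valuation :=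
      (Units.inv_mul_eq_iff_eq_mul _).2 (PadicInt.unitCoeff_spec hb)
    rw [h3, Algebra.smul_def, map_pow, map_natCast]
  have h2 : S N = S (max N b.valuation) := hN _ (le_max_left _ _)
  rw [h2]
  exact hm (le_max_right _ _) h1

end Pool.Agent.P.MP_7cb106_nt.BC

/-! Step NV1. -/

set_option autoImplicit false

namespace Pool.Agent.P.MP_7cb106_nt.BC

open Polynomial

theorem nv1_pow {O L : Type} [CommRing O] [Field L] (θ : O) (n : ℕ) (β : O → L) (x : O) :
    (LinearMap.funLeft L L (θ * ·) ^ n : Module.End L (O → L)) β x = β (θ ^ n * x) := by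
  induction n generalizing β with
  | zero => simp
  | succ n ih =>
    rw [pow_succ, Module.End.mul_apply, ih, LinearMap.funLeft_apply, pow_succ', mul_assoc]

theorem nv1_norm {A L : Type} [CommRing A] [NormedField L] [IsUltrametricDist L] (g : A →+* L)
    (hg : ∀ a, ‖g a‖ ≤ 1) {z : L} (hz : g.IsIntegralElem z) : ‖z‖ ≤ 1 := by
  obtain ⟨q, h1, h2⟩ := hz
  let g' : A →+* (NormedField.valuation (K := L)).integer := g.codRestrict _ fun a => hg a
  exact (Valuation.integer.integers (NormedField.valuation (K := L))).mem_of_integral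
    ⟨q.map g', h1.map _, by rw [eval₂_map]; exact h2⟩

theorem p_NV1 :
    S_NV1 := by
  intro p _ O W L _ _ _ _ _ _ _ ι j φ β θ hι hj hn hA hφ hadd hsm ⟨x0, hx0⟩ hF c hc
  classical
  have : Nontrivial W := ι.domain_nontrivial
  let T : Module.End L (O → L) := LinearMap.funLeft L L (θ * ·)
  let J : Ideal L[X] :=
    { carrier := {Q | aeval T Q β = 0}
      zero_mem' := by simp
      add_mem' := fun {a b} (ha : _ = _) (hb : _ = _) => by
        show _ = _
        rw [map_add, LinearMap.add_apply, ha, hb, add_zero]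
      smul_mem' := fun a b (hb : _ = _) => by
        show _ = _
        rw [smul_eq_mul, map_mul, Module.End.mul_apply, hb, map_zero] }
  have mem : ∀ (Q : L[X]) (n : ℕ), Q.natDegree < n →
      (Q ∈ J ↔ ∀ x, ∑ k ∈ Finset.range n, Q.coeff k * β (θ ^ k * x) = 0) := fun Q n h => by
    show aeval T Q β = 0 ↔ _
    rw [aeval_eq_sum_range' h, funext_iff]
    simp only [LinearMap.sum_apply, Finset.sum_apply, LinearMap.smul_apply, Pi.smul_apply,
      smul_eq_mul, T, nv1_pow, Pi.zero_apply]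
  have hP : (minpoly ℤ_[p] θ).Monic := minpoly.monic (Algebra.IsIntegral.isIntegral θ)
  have hg : Function.Injective (ι.comp j) := hι.comp hj
  have PJ : (minpoly ℤ_[p] θ).map (ι.comp j) ∈ J := by
    rw [mem _ _ (natDegree_map_le.trans_lt (Nat.lt_succ_self _))]
    intro x
    let b : O →+ L := AddMonoidHom.mk' β hadd
    have h1 := congrArg (fun y => b (y * x)) (minpoly.aeval ℤ_[p] θ)
    simp only [aeval_eq_sum_range, Finset.sum_mul, map_sum, zero_mul, map_zero,
      smul_mul_assoc] at h1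
    simp only [coeff_map, RingHom.comp_apply, ← hsm]
    exact h1
  obtain ⟨Q0, m0, J0, d0⟩ : ∃ Q0 : L[X], Q0.Monic ∧ Q0 ∈ J ∧ ∀ Q ∈ J, Q0 ∣ Q := by
    have h := fun Q => Submodule.IsPrincipal.mem_iff_generator_dvd J (x := Q)
    refine ⟨normalize (Submodule.IsPrincipal.generator J), monic_normalize fun e => ?_,
      (h _).2 (dvd_normalize_iff.2 dvd_rfl), fun Q hQ => normalize_dvd_iff.2 ((h Q).1 hQ)⟩
    have := (h _).1 PJ
    rw [e, zero_dvd_iff] at this
    exact (hP.map _).ne_zero this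
  obtain ⟨QW, rfl, -, mW⟩ : ∃ QW : W[X], QW.map ι = Q0 ∧ QW.natDegree = Q0.natDegree ∧
      QW.Monic := by
    refine lifts_and_natDegree_eq_and_monic ((lifts_iff_coeff_lifts _).2 fun k => ?_) m0
    let _ := (ι.comp j).toAlgebra
    have hi := isIntegral_coeff_of_dvd _ _ hP m0 (d0 _ PJ) k
    refine hA _ ?_ (nv1_norm (ι.comp j) (fun a => hn _) hi)
    obtain ⟨q, h1, h2⟩ := hi
    exact ⟨q, h1.ne_zero, h2⟩
  have fx : QW.map φ = QW := by
    have n1 : (QW.map ι).natDegree = QW.natDegree := mW.natDegree_map _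
    have n2 : ((QW.map φ).map ι).natDegree = QW.natDegree := by
      rw [(mW.map φ).natDegree_map, mW.natDegree_map]
    refine map_injective ι hι (eq_of_monic_of_dvd_of_natDegree_le m0 ((mW.map φ).map ι)
      (d0 _ ?_) (n2.trans n1.symm).le)
    rw [mem _ _ (n2.trans_lt (Nat.lt_succ_self _))]
    intro x
    have := (mem _ _ (n1.trans_lt (Nat.lt_succ_self _))).1 J0 x
    simp only [coeff_map] at this ⊢
    exact hF _ _ (fun k => θ ^ k * x) this
  obtain ⟨Q1, rfl, -, m1⟩ : ∃ Q1 : ℤ_[p][X], Q1.map j = QW ∧ Q1.natDegree = QW.natDegree ∧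
      Q1.Monic :=
    lifts_and_natDegree_eq_and_monic ((lifts_iff_coeff_lifts _).2 fun k =>
      hφ _ (by rw [← coeff_map, fx])) mW
  rw [map_map] at m0 J0 d0
  obtain ⟨R, hR⟩ := (map_dvd_map _ hg m1).1 (d0 _ PJ)
  have mR : R.Monic := m1.of_mul_monic_left (hR ▸ hP)
  have dg : (minpoly ℤ_[p] θ).natDegree ≤ Q1.natDegree := by
    have h0 := minpoly.aeval ℤ_[p] θ
    rw [hR, map_mul, mul_eq_zero] at h0
    rcases h0 with h0 | h0
    · exact natDegree_le_natDegree (minpoly.min _ _ m1 h0)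
    · have h1 := natDegree_le_natDegree (minpoly.min _ _ mR h0)
      rw [hR, m1.natDegree_mul mR] at h1
      obtain rfl : Q1 = 1 := m1.natDegree_eq_zero.1 (by omega)
      rw [Polynomial.map_one, mem _ 1 (by simp)] at J0
      exact absurd (by simpa using J0 x0) hx0
  set d := (minpoly ℤ_[p] θ).natDegree
  intro k hk
  let Q : L[X] := ∑ k ∈ Finset.range d, monomial k (c k)
  have cQ : ∀ m, Q.coeff m = if m < d then c m else 0 := fun m => by
    simp [Q, coeff_monomial]
  have nQ : Q.natDegree < d := by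
    by_cases h : Q = 0
    · rw [h, natDegree_zero]; omega
    · by_contra h'
      exact h (leadingCoeff_eq_zero.1 ((cQ _).trans (if_neg h')))
  have QJ : Q ∈ J := (mem Q d nQ).2 fun x =>
    (Finset.sum_congr rfl fun m hm => by rw [cQ, if_pos (Finset.mem_range.1 hm)]).trans (hc x)
  have Q0 : Q = 0 := eq_zero_of_dvd_of_natDegree_lt (d0 Q QJ) (by
    rw [m1.natDegree_map]; omega)
  rw [← if_pos hk (t := c k) (e := 0), ← cQ, Q0, coeff_zero]

end Pool.Agent.P.MP_7cb106_nt.BC

/-! Step NV2. -/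

set_option autoImplicit false

namespace Pool.Agent.P.MP_7cb106_nt.BC

open Polynomial

theorem nv2_ext {A O L : Type} [CommRing A] [Nontrivial A] [CommRing O] [Algebra A O]
    [Module.Finite A O] [Field L] (g : A →+* L) {θ : O} {q : A} (hq : g q ≠ 0)
    (h : ∀ x : O, ∃ Q : A[X], q • x = aeval θ Q) (F : O → L) (h1 : ∀ x y, F (x + y) = F x + F y)
    (h2 : ∀ (a : A) x, F (a • x) = g a * F x)
    (h3 : ∀ i : Fin (minpoly A θ).natDegree, F (θ ^ i.1) = 0) (x : O) : F x = 0 := by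
  obtain ⟨Q, e⟩ := h x
  have m := minpoly.monic (Algebra.IsIntegral.isIntegral (R := A) θ)
  rcases subsingleton_or_nontrivial O with _ | _
  · simpa [Subsingleton.elim ((0 : A) • x) x] using h2 0 x
  have n1 : minpoly A θ ≠ 1 := minpoly.ne_one A θ
  rw [← aeval_modByMonic_eq_self_of_root (minpoly.aeval A θ),
    aeval_eq_sum_range' (natDegree_modByMonic_lt Q m n1)] at e
  have := congrArg (AddMonoidHom.mk' F h1) e
  rw [map_sum, Finset.sum_eq_zero fun i hi => by
    rw [AddMonoidHom.mk'_apply, h2, h3 ⟨i, Finset.mem_range.1 hi⟩, mul_zero],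
    AddMonoidHom.mk'_apply, h2] at this
  exact (mul_eq_zero.1 this).resolve_left hq

theorem p_NV2 (hNV0 : S_NV0) :
    S_NV2 := by
  intro p _ O L _ _ _ _ _ _ g β hg h1 h2 h3 l
  obtain ⟨θ, a, h⟩ := hNV0 p O
  have ext := nv2_ext g (θ := θ) (q := (p : ℤ_[p]) ^ a)
    ((map_ne_zero_iff g hg).2 (pow_ne_zero _ (NeZero.ne _))) fun x => by
      rw [Algebra.smul_def, map_pow, map_natCast]; exact h x
  have h4 := h3 θ
  generalize (minpoly ℤ_[p] θ).natDegree = f at ext h4
  have a1 : ∀ (c : ℕ → L) x y, ∑ k ∈ Finset.range f, c k * β (θ ^ k * (x + y)) =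
      ∑ k ∈ Finset.range f, c k * β (θ ^ k * x) + ∑ k ∈ Finset.range f, c k * β (θ ^ k * y) :=
    fun c x y => by simp only [mul_add, h1, Finset.sum_add_distrib]
  have a2 : ∀ (c : ℕ → L) (b : ℤ_[p]) x, ∑ k ∈ Finset.range f, c k * β (θ ^ k * b • x) =
      g b * ∑ k ∈ Finset.range f, c k * β (θ ^ k * x) := fun c b x => by
    simp only [mul_smul_comm, h2, Finset.mul_sum, mul_left_comm]
  let A : Matrix (Fin f) (Fin f) L := fun i k => β (θ ^ k.1 * θ ^ i.1)
  have a3 : ∀ (c : Fin f → L) (i : Fin f), A.mulVecLin c i = ∑ k ∈ Finset.range f,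
      (if h : k < f then c ⟨k, h⟩ else 0) * β (θ ^ k * θ ^ i.1) := fun c i => by
    rw [Finset.sum_range]
    simp [A, Matrix.mulVec, dotProduct, mul_comm]
  have inj : Function.Injective A.mulVecLin := (injective_iff_map_eq_zero _).2 fun c hc =>
    funext fun k => by
      simpa using h4 _ (ext _ (a1 _) (a2 _) fun i => (a3 c i).symm.trans (congrFun hc i)) k k.2
  obtain ⟨c, hc⟩ := LinearMap.injective_iff_surjective.1 inj fun i => g (l (θ ^ i.1))
  exact ⟨f, _, (θ ^ ·), fun x => sub_eq_zero.1 (ext (fun x => g (l x) - ∑ k ∈ Finset.range f,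
    (if h : k < f then c ⟨k, h⟩ else 0) * β (θ ^ k * x))
    (fun x y => by rw [a1, map_add, map_add]; ring)
    (fun b x => by rw [a2, map_smul, smul_eq_mul, map_mul]; ring)
    (fun i => by rw [← a3, hc, sub_self]) x)⟩

end Pool.Agent.P.MP_7cb106_nt.BC

/-! Step GENF. -/

set_option autoImplicit false

namespace Pool.Agent.P.MP_7cb106_nt.BC

open Polynomial

theorem genf_countable {C : Type} [Field C] (T : Set C) (hT : T.Countable) :
    (Subfield.closure T : Set C).Countable := by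
  rw [← Cardinal.le_aleph0_iff_set_countable] at hT ⊢
  exact (Subfield.cardinalMk_closure_le_max T).trans (max_le hT le_rfl)

theorem genf_roots {C : Type} [Field C] :
    {a : C | ∃ n, 0 < n ∧ a ^ (n + 1) = a}.Countable := by
  have h : {a : C | ∃ n, 0 < n ∧ a ^ (n + 1) = a} ⊆
      ⋃ n : ℕ, {a : C | IsRoot (X ^ (n + 2) - X : C[X]) a} := by
    rintro a ⟨n, hn, ha⟩
    refine Set.mem_iUnion.2 ⟨n - 1, ?_⟩
    have e : n - 1 + 2 = n + 1 := by omega
    simp [e, ha]
  refine Set.Countable.mono h (Set.countable_iUnion fun n => Set.Finite.countable ?_)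
  exact finite_setOfPred_isRoot (FiniteField.X_pow_card_sub_X_ne_zero C (by omega))

theorem genf_nsmul {O C : Type} [AddCommGroup O] [Monoid C] (μ : O → C) (h0 : μ 0 = 1)
    (h1 : ∀ x y, μ (x + y) = μ x * μ y) (n : ℕ) (x : O) : μ (n • x) = μ x ^ n := by
  induction n with
  | zero => simp [h0]
  | succ n ih => rw [succ_nsmul, h1, ih, pow_succ]

theorem genf_mem {C : Type} [NormedField C] (S : Subfield C) (a : C) :
    a ∈ S.topologicalClosure ↔ ∀ ε : ℝ, 0 < ε → ∃ b ∈ S, ‖a - b‖ < ε := by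
  change a ∈ closure (S : Set C) ↔ _
  simp only [Metric.mem_closure_iff, dist_eq_norm]
  rfl

theorem genf_root (p : ℕ) [Fact p.Prime] {C : Type} [Field C] [IsAlgClosed C] [CharP C p]
    (T : Set C) (hT : ∀ a ∈ T, ∀ b : C, b ^ p = a → b ∈ T) (a : C)
    (ha : a ∈ Subfield.closure T) : ∃ b ∈ Subfield.closure T, b ^ p = a := by
  have h : (Subfield.closure T).map ((frobeniusEquiv C p).symm : C →+* C) ≤
      Subfield.closure T := by
    rw [RingHom.map_field_closure]
    refine Subfield.closure_mono ?_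
    rintro _ ⟨c, hc, rfl⟩
    exact hT c hc _ (frobeniusEquiv_symm_pow_p C p c)
  exact ⟨_, h ⟨a, ha, rfl⟩, frobeniusEquiv_symm_pow_p C p a⟩

theorem p_GENF :
    S_GENF := by
  intro p hp O _ _ _ C _ _ _ _ μ h0 h1 h2
  have hp0 : p ≠ 0 := hp.out.ne_zero
  obtain ⟨W, hW⟩ := Module.Finite.fg_top (R := ℤ_[p]) (M := O)
  have hinj : ∀ j : ℕ, ∀ b c : C, b ^ p ^ j = c ^ p ^ j → b = c := fun j b c h => by
    have e : (b - c) ^ p ^ j = 0 := by rw [sub_pow_char_pow, h, sub_self]
    exact sub_eq_zero.1 (pow_eq_zero_iff (pow_ne_zero j hp0) |>.1 e)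
  set T : Set C := (⋃ j : ℕ, ⋃ w ∈ (W : Set O), {b : C | b ^ p ^ j = μ w}) ∪
    {a : C | ∃ n, 0 < n ∧ a ^ (n + 1) = a} with hTdef
  have hTc : T.Countable := by
    refine Set.Countable.union (Set.countable_iUnion fun j =>
      W.countable_toSet.biUnion fun w _ => Set.Subsingleton.countable ?_) genf_roots
    intro b hb c hc
    exact hinj j b c (hb.trans hc.symm)
  have hTr : ∀ a ∈ T, ∀ b : C, b ^ p = a → b ∈ T := by
    rintro a (ha | ⟨n, hn, ha⟩) b rfl
    · simp only [Set.mem_iUnion] at ha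
      obtain ⟨j, w, hw, ha⟩ := ha
      refine Or.inl (Set.mem_iUnion.2 ⟨j + 1, Set.mem_biUnion hw ?_⟩)
      change b ^ p ^ (j + 1) = μ w
      rw [pow_succ', pow_mul]
      exact ha
    · refine Or.inr ⟨n, hn, hinj 1 _ _ ?_⟩
      rw [pow_one, ← pow_mul, mul_comm, pow_mul, ha]
  refine ⟨(Subfield.closure T).topologicalClosure, ?_, ?_, ?_, ?_⟩
  · have key : ∀ x ∈ Submodule.span ℤ_[p] (W : Set O), ∀ a : ℤ_[p],
        μ (a • x) ∈ (Subfield.closure T).topologicalClosure := by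
      intro x hx
      induction hx using Submodule.span_induction with
      | mem w hw =>
        intro a
        have hw' : μ w ∈ Subfield.closure T :=
          Subfield.subset_closure (Or.inl (Set.mem_iUnion.2 ⟨0, Set.mem_biUnion hw (by simp)⟩))
        rw [genf_mem]
        intro ε hε
        obtain ⟨n, hn⟩ := exists_pow_lt_of_lt_one (half_pos hε) (show (1 / 2 : ℝ) < 1 by norm_num)
        obtain ⟨b, hb⟩ := Ideal.mem_span_singleton.1 (PadicInt.appr_spec n a)
        have e : a • w = (a.appr n) • w + (p ^ n) • (b • w) := by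
          rw [← Nat.cast_smul_eq_nsmul ℤ_[p], ← Nat.cast_smul_eq_nsmul ℤ_[p], smul_smul,
            ← add_smul, Nat.cast_pow, ← hb, add_sub_cancel]
        refine ⟨μ ((a.appr n) • w), ?_, ?_⟩
        · rw [genf_nsmul μ h0 h1]
          exact pow_mem hw' _
        · have e2 : μ (a • w) - μ ((a.appr n) • w) =
              μ ((a.appr n) • w) * (μ (b • w) - 1) ^ p ^ n := by
            rw [e, h1, genf_nsmul μ h0 h1 (p ^ n), sub_pow_char_pow, one_pow]
            ring
          have e3 : ‖μ ((a.appr n) • w)‖ ≤ 2 := by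
            have := norm_add_le (μ ((a.appr n) • w) - 1) 1
            rw [sub_add_cancel, norm_one] at this
            linarith [h2 ((a.appr n) • w)]
          have e4 : ‖μ (b • w) - 1‖ ^ p ^ n ≤ (1 / 2) ^ n :=
            (pow_le_pow_left₀ (norm_nonneg _) (h2 _) _).trans
              (pow_le_pow_of_le_one (by norm_num) (by norm_num)
                (Nat.lt_pow_self hp.out.one_lt).le)
          rw [e2, norm_mul, norm_pow]
          calc _ ≤ 2 * (1 / 2) ^ n := mul_le_mul e3 e4 (by positivity) (by norm_num)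
            _ < ε := by linarith
      | zero => intro a; rw [smul_zero, h0]; exact one_mem _
      | add x y _ _ hx hy => intro a; rw [smul_add, h1]; exact mul_mem (hx a) (hy a)
      | smul c x _ hx => intro a; rw [smul_smul]; exact hx _
    intro x
    simpa using key x (by rw [hW]; trivial) 1
  · rintro a ha b rfl
    rw [genf_mem] at ha ⊢
    intro ε hε
    obtain ⟨a1, ha1, h⟩ := ha (ε ^ p) (pow_pos hε p)
    obtain ⟨b1, hb1, rfl⟩ := genf_root p T hTr a1 ha1
    rw [← sub_pow_char, norm_pow] at h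
    exact ⟨b1, hb1, lt_of_pow_lt_pow_left₀ p hε.le h⟩
  · intro a ha
    exact Subfield.le_topologicalClosure _ (Subfield.subset_closure (Or.inr ha))
  · refine Set.Countable.mono ?_ ((genf_countable T hTc).image fun a : C => ‖a‖)
    rintro _ ⟨a, ha, rfl⟩
    by_cases h : a = 0
    · exact ⟨0, zero_mem _, by rw [h]⟩
    · obtain ⟨b, hb, hab⟩ := (genf_mem _ a).1 ha ‖a‖ (norm_pos_iff.2 h)
      refine ⟨b, hb, ?_⟩
      have h3 := IsUltrametricDist.norm_add_eq_max_of_norm_ne_norm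
        (x := -(a - b)) (y := a) (by rw [norm_neg]; exact hab.ne)
      rw [norm_neg, max_eq_right hab.le] at h3
      simpa using h3

end Pool.Agent.P.MP_7cb106_nt.BC

/-! Step SPL. -/

set_option autoImplicit false

namespace Pool.Agent.P.MP_7cb106_nt.BC

open Polynomial

theorem spl_pow {p : ℕ} [Fact p.Prime] {C : Type} [Field C] [Algebra (ZMod p) C] {r : C}
    (h : IsAlgebraic (ZMod p) r) : ∃ n, 0 < n ∧ r ^ (n + 1) = r := by
  have := IntermediateField.adjoin.finiteDimensional h.isIntegral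
  have : Finite (IntermediateField.adjoin (ZMod p) {r}) := Module.finite_of_finite (ZMod p)
  have := Fintype.ofFinite (IntermediateField.adjoin (ZMod p) {r})
  obtain ⟨n, hn⟩ := Nat.exists_eq_add_of_lt
    (Fintype.one_lt_card (α := IntermediateField.adjoin (ZMod p) {r}))
  have h1 := FiniteField.pow_card (IntermediateField.AdjoinSimple.gen (ZMod p) r)
  rw [hn] at h1
  exact ⟨1 + n, by omega, congrArg Subtype.val h1⟩

theorem p_SPL :
    S_SPL := by
  intro p _ C _ _ _ _ Q hQ u hu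
  let _ : Algebra (ZMod p) C := (ZMod.castHom (dvd_refl p) C).toAlgebra
  have h0 : Q.map (algebraMap (ZMod p) C) ≠ 0 := Polynomial.map_ne_zero hQ
  have h1 : ‖(Q.map (algebraMap (ZMod p) C)).leadingCoeff‖ = 1 := by
    have h2 := congrArg (fun x => ‖algebraMap (ZMod p) C x‖)
      (ZMod.pow_card_sub_one_eq_one (leadingCoeff_ne_zero.2 hQ))
    simp only [map_pow, norm_pow, map_one, norm_one] at h2
    rw [leadingCoeff_map]
    exact (pow_eq_one_iff_of_nonneg (norm_nonneg _)
      (Nat.sub_ne_zero_of_lt (Fact.out : p.Prime).one_lt)).1 h2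
  by_contra h
  refine hu.not_ge ?_
  change 1 ≤ ‖Q.eval₂ (algebraMap (ZMod p) C) u‖
  rw [eval₂_eq_eval_map, (IsAlgClosed.splits _).eval_eq_prod_roots, norm_mul, h1, one_mul]
  refine Multiset.prod_induction (fun x : C => 1 ≤ ‖x‖) _ (fun a b ha hb => ?_) (by simp) ?_
  · rw [norm_mul]
    exact one_le_mul_of_one_le_of_one_le ha hb
  · intro x hx
    obtain ⟨r, hr, rfl⟩ := Multiset.mem_map.1 hx
    refine not_lt.1 fun h3 => h ⟨r, spl_pow (p := p) ⟨Q, hQ, ?_⟩, h3⟩
    rw [aeval_def, eval₂_eq_eval_map]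
    exact (mem_roots h0).1 hr

end Pool.Agent.P.MP_7cb106_nt.BC

/-! Step DV. -/

set_option autoImplicit false

namespace Pool.Agent.P.MP_7cb106_nt.BC

open Polynomial

theorem p_DV (hWIT : S_WIT) (hWZP : S_WZP) (hNORM : S_NORM) (hDOM : S_DOM) (hNMUL : S_NMUL) (hLL : S_LL) (hDENSE : S_DENSE) (hNJ : S_NJ) (hALG : S_ALG) (hBET1 : S_BET1) (hBET2 : S_BET2) (hBET3 : S_BET3) (hFROB : S_FROB) (hNV1 : S_NV1) (hNV2 : S_NV2) (hAPR : S_APR) (hEXT : S_EXT) :
    S_DV := by
  intro p hp O _ _ _ _ _ V _ _ _ nv μ s hV hS s0 s1 hG hμ hne l M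
  have hdom : IsDomain V := by
    have : Nontrivial V := ⟨1, 0, fun h => by
      have := hV.one
      rw [h, (hV.eq_zero 0).2 rfl] at this
      exact zero_ne_one this⟩
    have : NoZeroDivisors V := ⟨fun {a b} h => by
      have h1 := hV.mul a b
      rw [h, (hV.eq_zero 0).2 rfl] at h1
      exact (mul_eq_zero.1 h1.symm).imp (hV.eq_zero a).1 (hV.eq_zero b).1⟩
    exact NoZeroDivisors.to_isDomain V
  obtain ⟨sh, hSP⟩ := hWIT p V
  obtain ⟨j, hj⟩ := hWZP p V
  set τ : V →* WittVector p V := WittVector.teichmuller p with hτ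
  set ρ := s ^ p ^ 2 with hρ
  have r0 : 0 < ρ := pow_pos s0 _
  have r1 : ρ < 1 := pow_lt_one₀ s0.le s1 (pow_pos hp.out.pos 2).ne'
  have hNP := hNORM p V _ nv τ _ sh ρ hV hSP r0 r1
  have hDom := hDOM p V _ nv τ _ sh ρ hV hSP r0 r1 hG
  have hN1 : NN nv WittVector.constantCoeff sh ρ 1 = 1 := by
    simpa [hV.one] using hNP.mono 0 1
  obtain ⟨L, _, _, _, ι, hι, hden⟩ := hLL _ _ hNP.nonneg hNP.eq_zero hN1 hNP.add hNP.neg
    (hNMUL p V _ nv τ ρ _ hV hNP hDom)
  have e : (fun x => ‖ι x‖) = NN nv WittVector.constantCoeff sh ρ := funext hι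
  have hNP' : NP p τ nv ρ (fun x => ‖ι x‖) := e ▸ hNP
  have hDom' : Dom p τ (fun x => ‖ι x‖) := e ▸ hDom
  have hDen := hDENSE p V _ L nv τ ρ ι hV hNP' hDom' hden
  have hp' : ‖(p : L)‖ = ρ := by simpa [hV.one] using hNP'.mono 1 1
  have hg1 : ∀ a, ‖(ι.comp j) a‖ ≤ 1 := fun a => hNP'.le_one _
  have hinj : Function.Injective ι := (injective_iff_map_eq_zero ι).2 fun x hx =>
    (hNP'.eq_zero x).1 (by simp [hx])
  have hg := (hNJ p L (ι.comp j) ρ r0 r1 hp' hg1).1
  obtain ⟨A, hA1, hA⟩ := hBET1 p O V _ nv τ _ sh ρ _ μ hSP r0 r1 hNP' hμ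
  obtain ⟨β, B, hAB, h1, h2, h3⟩ := hBET2 p O L (fun n x => ι (UU p τ μ n x)) ρ A r0 r1 hp' hA1
    (fun n x => by simp [UU, pow_succ, pow_mul]) (fun n x => hNP'.le_one _) hA
  have hLg : Lg p (UU p τ μ) ι ρ B β :=
    ⟨hA1.trans hAB, fun n x => (hA n x).trans (mul_le_mul_of_nonneg_right hAB (pow_pos r0 n).le),
      h1, h2⟩
  obtain ⟨hadd, hlin⟩ := hBET3 p O _ L _ ι (ι.comp j) ρ B β r0 r1 hp' hg1 hLg fun n x y => by
    simp only [UU, hμ.add, map_mul, mul_pow]
    ring
  have hβ : ∃ x, β x ≠ 0 := hne.imp fun x hx => h3 x fun n h => hx (by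
    have h4 := congrArg WittVector.constantCoeff (hinj (h.trans (map_zero ι).symm))
    rw [UU, map_sub, map_pow, hSP.res, map_one, map_zero, ← one_pow (p ^ n), ← sub_pow_char_pow]
      at h4
    exact sub_eq_zero.1 (pow_eq_zero_iff (pow_pos hp.out.pos n).ne' |>.1 h4))
  obtain ⟨m, γ, y, hl⟩ := hNV2 p O L (ι.comp j) β hg hadd hlin (fun θ =>
    hNV1 p O _ L ι j (WittVector.map (frobenius V p)) β θ hinj (Function.Injective.of_comp hg)
      hNP'.le_one (hALG p V _ L nv τ _ sh ρ ι j hV hSP r0 r1 hNP' hDom' hDen hG hS) hj hadd hlin hβ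
      (hFROB p O V _ L nv τ _ sh _ s B ι μ β hV hSP
        (fun c => WittVector.map_teichmuller p _ c) s0 s1 hι hμ hLg)) l
  obtain ⟨E, n0, hE1, hE⟩ := hAPR p O V _ L nv τ ρ B ι j μ β hV r0 r1 hNP' hDen hLg l m γ y hl (M + 1)
  have E0 : 0 < E := one_pos.trans_le hE1
  obtain ⟨n1, hn1⟩ := exists_pow_lt_of_lt_one (show 0 < (E ^ (M + 1))⁻¹ by positivity) r1
  obtain ⟨a, D, w, e', hD, hw, hx⟩ := hE (n0 + n1 + M * (M + 1)) (by omega)
  set n := n0 + n1 + M * (M + 1) with hn
  have D0 : 0 < nv D := (hV.nonneg D).lt_of_ne' fun h => hD ((hV.eq_zero D).1 h)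
  obtain ⟨c, α, hc, hα, hr⟩ := hEXT p O V nv sh ρ j μ hV hSP r0 r1 hμ l m (M + 1) n (a + n + (M + 1))
    D w e' y (E * ρ ^ a * nv D) (nv D * (E * ρ ^ ((M + 1) * n))) (by positivity)
    (fun k => hι _ ▸ hw k) (fun x => by rw [← hι]; exact (hx x).trans_eq (mul_assoc _ _ _))
  have q0 : 0 < ρ ^ (n + (M + 1)) := pow_pos r0 _
  refine ⟨E / ρ ^ (n + (M + 1)), D, c, α, ?_, hD, ?_, fun x => (hα x).trans ?_, hr⟩
  · rw [one_lt_div q0]
    exact (pow_lt_one₀ r0.le r1 (by omega)).trans_le hE1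
  · rw [div_mul_eq_mul_div, le_div_iff₀ q0]
    refine le_of_mul_le_mul_left ?_ (pow_pos r0 a)
    rw [add_assoc, pow_add] at hc
    linarith
  · refine mul_le_mul_of_nonneg_left ?_ D0.le
    rw [div_pow, inv_div, le_div_iff₀ (pow_pos E0 M), ← pow_mul ρ,
      show (M + 1) * n = (n + (M + 1)) * M + (n1 + n0) by rw [hn]; ring, pow_add ρ, pow_add ρ n1]
    have h5 : ρ ^ n1 * E ^ (M + 1) ≤ 1 := by
      rw [← le_div_iff₀ (pow_pos E0 _), one_div]; exact hn1.le
    have h6 : ρ ^ n0 ≤ 1 := pow_le_one₀ r0.le r1.le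
    calc E * (ρ ^ ((n + (M + 1)) * M) * (ρ ^ n1 * ρ ^ n0)) * E ^ M
        = ρ ^ ((n + (M + 1)) * M) * ((ρ ^ n1 * E ^ (M + 1)) * ρ ^ n0) := by ring
      _ ≤ ρ ^ ((n + (M + 1)) * M) * 1 :=
        mul_le_mul_of_nonneg_left (mul_le_one₀ h5 (pow_pos r0 _).le h6) (pow_pos r0 _).le
      _ = _ := mul_one _

end Pool.Agent.P.MP_7cb106_nt.BC
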