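import Pool.Agent.P.MP_7cb106_nt.BC.Iface

/-! Step WIT. -/

set_option autoImplicit false

namespace Pool.Agent.P.MP_7cb106_nt.BC

open Polynomial

section
open WittVector
variable {p : ℕ} [Fact p.Prime] {R : Type} [CommRing R] [CharP R p] [PerfectRing R p]

/-- the shift -/
noncomputable def wit_sh (x : WittVector p R) : WittVector p R :=
  WittVector.mk p fun i => (frobeniusEquiv R p).symm (x.coeff (i + 1))

theorem wit_pow (x : WittVector p R) (i : ℕ) : (wit_sh x).coeff i ^ p = x.coeff (i + 1) :=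
  frobeniusEquiv_symm_pow_p R p _

theorem wit_inj (i : ℕ) {a b : R} (h : a ^ p ^ i = b ^ p ^ i) : a = b := by
  induction i with
  | zero => simpa using h
  | succ i ih =>
    refine ih ((frobeniusEquiv R p).injective ?_)
    simpa [frobenius_def, ← pow_mul, pow_succ] using h

theorem wit_iter (i : ℕ) (x : WittVector p R) (k : ℕ) :
    (wit_sh^[i] x).coeff k ^ p ^ i = x.coeff (k + i) := by
  induction i generalizing k with
  | zero => simp
  | succ i ih =>
    rw [Function.iterate_succ_apply', pow_succ', pow_mul, wit_pow, ih]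
    congr 1; omega

omit [PerfectRing R p] in
theorem wit_add (c : R) (y : WittVector p R) (i : ℕ) :
    (teichmuller p c + (p : WittVector p R) * y).coeff i =
      (teichmuller p c).coeff i + ((p : WittVector p R) * y).coeff i := by
  refine coeff_add_of_disjoint i _ _ fun n => ?_
  cases n with
  | zero => right; rw [mul_comm, mul_charP_coeff_zero]
  | succ n => left; exact teichmuller_coeff_pos p c _ n.succ_pos

end

theorem p_WIT :
    S_WIT := by
  intro p _ R _ _ _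
  refine ⟨wit_sh, WittVector.teichmuller_zero p, fun x => ?_, fun c => ?_, CharP.cast_eq_zero R p,
    fun x h => ?_, fun x h => ?_, fun r => ?_⟩
  · ext i
    rw [wit_add, mul_comm]
    cases i with
    | zero => rw [WittVector.mul_charP_coeff_zero, add_zero]; rfl
    | succ i =>
      rw [WittVector.mul_charP_coeff_succ, wit_pow,
        WittVector.teichmuller_coeff_pos p _ _ i.succ_pos, zero_add]
  · rfl
  · ext i
    have := congrArg (fun z : WittVector p R => z.coeff (i + 1)) h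
    simp only [mul_comm (p : WittVector p R), WittVector.mul_charP_coeff_succ,
      WittVector.zero_coeff] at this
    refine wit_inj (p := p) 1 ?_
    rw [pow_one, this, WittVector.zero_coeff, zero_pow (Fact.out : p.Prime).ne_zero]
  · ext i
    obtain ⟨y, rfl⟩ := h (i + 1)
    rw [mul_comm, WittVector.mul_pow_charP_coeff_zero _ i.lt_succ_self, WittVector.zero_coeff]
  · refine ⟨WittVector.mk p fun i => r i ^ p ^ i, fun i => wit_inj (p := p) i ?_⟩
    exact (wit_iter i _ 0).trans (by rw [zero_add]; rfl)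

end Pool.Agent.P.MP_7cb106_nt.BC

/-! Step WZP. -/

set_option autoImplicit false

namespace Pool.Agent.P.MP_7cb106_nt.BC

open Polynomial

theorem wzp_fix {p : ℕ} [Fact p.Prime] {R : Type} [CommRing R] [IsDomain R] [CharP R p] {c : R}
    (h : c ^ p = c) : ∃ a : ZMod p, ZMod.castHom (dvd_refl p) R a = c := by
  have hi := IsFractionRing.injective R (FractionRing R)
  have : CharP (FractionRing R) p := charP_of_injective_algebraMap hi p
  have h1 := (Subfield.mem_bot_iff_pow_eq_self (FractionRing R) p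
    (x := algebraMap R (FractionRing R) c)).2 (by rw [← map_pow, h])
  obtain ⟨a, ha⟩ := (bot_le (a := (ZMod.castHom (dvd_refl p) (FractionRing R)).fieldRange)) h1
  refine ⟨a, hi ?_⟩
  rw [← ha]
  exact RingHom.congr_fun (RingHom.ext_zmod ((algebraMap R (FractionRing R)).comp _) _) a

theorem p_WZP :
    S_WZP := by
  intro p _ R _ _ _
  refine ⟨(WittVector.map (ZMod.castHom (dvd_refl p) R)).comp
    (WittVector.equiv p).symm.toRingHom, fun w hw => ?_⟩
  choose a ha using fun n => wzp_fix (p := p) (c := w.coeff n)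
    (by simpa [frobenius_def] using congrArg (fun x => WittVector.coeff x n) hw)
  refine ⟨WittVector.equiv p (WittVector.mk p a), ?_⟩
  ext n
  simp [← ha]

end Pool.Agent.P.MP_7cb106_nt.BC

/-! Step NPHI. -/

set_option autoImplicit false

namespace Pool.Agent.P.MP_7cb106_nt.BC

open Polynomial

theorem p_NPHI :
    S_NPHI := by
  intro p V W _ _ nv τ T0 sh φ s hv h hφ s0 s1 x
  have le := fun n i => le_NN (T0 := T0) (sh := sh) hv (pow_pos s0 n).le
    (pow_le_one₀ s0.le s1.le) x i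
  have nn : ∀ n i : ℕ, 0 ≤ (s ^ n) ^ i * nv (T0 (sh^[i] x)) := fun n i =>
    mul_nonneg (by positivity) (hv.nonneg _)
  have n0 := fun n => (nn n 0).trans (le n 0)
  have l1 := le 1
  have n1 := n0 1
  have m1 := nn 1
  rw [pow_one] at l1 n1 m1
  constructor
  · refine NN_le fun i => ?_
    rw [h.nat h (fun c => c ^ p) φ hφ, hv.pow]
    refine le_trans (le_of_eq ?_) (pow_le_pow_left₀ (nn p i) (le p i) p)
    ring
  · have hB : 0 ≤ NN nv T0 sh (s ^ p ^ 2) x * NN nv T0 sh s x ^ p :=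
      mul_nonneg (n0 _) (pow_nonneg n1 _)
    rw [← Real.rpow_inv_natCast_pow hB p.succ_ne_zero]
    refine pow_le_pow_left₀ (n0 p) (NN_le fun i => ?_) _
    rw [← pow_le_pow_iff_left₀ (nn p i) (Real.rpow_nonneg hB _) p.succ_ne_zero,
      Real.rpow_inv_natCast_pow hB p.succ_ne_zero]
    refine le_trans (le_of_eq ?_) (mul_le_mul (le (p ^ 2) i)
      (pow_le_pow_left₀ (m1 i) (l1 i) p) (pow_nonneg (m1 i) _) (n0 _))
    rw [Nat.succ_eq_add_one]
    ring

end Pool.Agent.P.MP_7cb106_nt.BC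

/-! Step DENSE. -/

set_option autoImplicit false

namespace Pool.Agent.P.MP_7cb106_nt.BC

open Polynomial

theorem dense_id {L : Type} [Field L] (A B M G : L) (n : ℕ) (hB : B ≠ 0) (hM : M ≠ 0)
    (h : G * B = M ^ n - (M - B) ^ n) : A / B - A * G / M ^ n = A / B * ((M - B) / M) ^ n := by
  have h1 : (M - B) ^ n = M ^ n - G * B := by rw [h]; ring
  rw [div_pow, h1]
  field_simp

theorem p_DENSE :
    S_DENSE := by
  intro p V W L _ _ _ _ nv τ s ι hV hN hD hd z ε hε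
  obtain ⟨a, b, hb, hz⟩ := hd z ε hε
  obtain ⟨i, c, hc⟩ := hD b hb
  simp only [map_sub] at hc
  set m : W := (p : W) ^ i * τ c with hm
  have hB : ι b ≠ 0 := fun h => hb ((hN.eq_zero b).1 (by simp [h]))
  have hMB : ‖ι m‖ = ‖ι b‖ := by
    have h1 : ι m = ι b + -(ι b - ι m) := by ring
    rw [h1, IsUltrametricDist.norm_add_eq_max_of_norm_ne_norm (by rw [norm_neg]; exact hc.ne'),
      norm_neg, max_eq_left hc.le]
  have hM : ι m ≠ 0 := by
    rw [← norm_ne_zero_iff, hMB, norm_ne_zero_iff]; exact hB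
  have hc0 : nv c ≠ 0 := by
    intro h
    have h2 := hN.mono i c
    simp only [h, mul_zero] at h2
    exact hM (norm_eq_zero.1 h2)
  have hr : ‖(ι m - ι b) / ι m‖ < 1 := by
    rw [norm_div, norm_sub_rev, hMB, div_lt_one (norm_pos_iff.2 hB)]
    exact hc
  have hK : 0 < ‖ι a / ι b‖ + 1 := by positivity
  obtain ⟨n, hn⟩ := exists_pow_lt_of_lt_one (div_pos hε hK) hr
  refine ⟨a * ∑ k ∈ Finset.range n, m ^ k * (m - b) ^ (n - 1 - k), i * n, c ^ n, ?_, ?_⟩
  · intro h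
    have h2 := (hV.eq_zero _).2 h
    rw [hV.pow] at h2
    exact pow_ne_zero n hc0 h2
  · have e1 : (p : W) ^ (i * n) * τ (c ^ n) = m ^ n := by
      rw [hm, mul_pow, map_pow, pow_mul]
    have e2 : ι (∑ k ∈ Finset.range n, m ^ k * (m - b) ^ (n - 1 - k)) * ι b
        = ι m ^ n - (ι m - ι b) ^ n := by
      have h3 := congrArg ι (geom_sum₂_mul m (m - b) n)
      rw [sub_sub_cancel, map_mul, map_sub, map_pow, map_pow, map_sub] at h3
      exact h3
    have e3 := dense_id (ι a) (ι b) (ι m) _ n hB hM e2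
    rw [e1, map_pow, map_mul]
    have e4 : z - ι a * ι (∑ k ∈ Finset.range n, m ^ k * (m - b) ^ (n - 1 - k)) / ι m ^ n
        = (z - ι a / ι b) + ι a / ι b * ((ι m - ι b) / ι m) ^ n := by
      rw [← e3]; ring
    rw [e4]
    refine (IsUltrametricDist.norm_add_le_max _ _).trans (max_le hz.le ?_)
    rw [norm_mul, norm_pow]
    rw [lt_div_iff₀ hK] at hn
    have h5 : 0 ≤ ‖(ι m - ι b) / ι m‖ ^ n := by positivity
    nlinarith [norm_nonneg (ι a / ι b)]

end Pool.Agent.P.MP_7cb106_nt.BC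

/-! Step ALG0. -/

set_option autoImplicit false

namespace Pool.Agent.P.MP_7cb106_nt.BC

open Polynomial

theorem alg0_iso {L : Type} [NormedField L] [IsUltrametricDist L] {x y : L}
    (h : ‖x - y‖ < ‖x‖) : ‖y‖ = ‖x‖ := by
  have h1 : ‖x + -y‖ < max ‖x‖ ‖-y‖ := by
    rw [← sub_eq_add_neg]
    exact h.trans_le (le_max_left _ _)
  rw [IsUltrametricDist.norm_eq_of_add_norm_lt_max h1, norm_neg]

theorem alg0_apx {p : ℕ} {V W L : Type} [CommRing V] [CommRing W] [NormedField L]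
    [IsUltrametricDist L] {nv : V → ℝ} {τ : V →* W} {s : ℝ} {ι : W →+* L} (hv : VA nv)
    (h0 : 0 < s) (hN : NP p τ nv s (fun x => ‖ι x‖)) (hD : Dom p τ (fun x => ‖ι x‖))
    (hE : Den p τ ι) {z : L} (hz : z ≠ 0) :
    ∃ (i a : ℕ) (c d : V), d ≠ 0 ∧ ι (p ^ a * τ d) ≠ 0 ∧
      ‖z - ι (p ^ i * τ c) / ι (p ^ a * τ d)‖ < ‖z‖ ∧ ‖z‖ * (s ^ a * nv d) = s ^ i * nv c := by
  have hz0 : 0 < ‖z‖ := norm_pos_iff.2 hz
  obtain ⟨w, a, d, hd, h1⟩ := hE z (‖z‖ / 2) (by positivity)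
  have hd0 : 0 < nv d := lt_of_le_of_ne (hv.nonneg d) fun h => hd ((hv.eq_zero d).1 h.symm)
  have hD1 : ‖ι (p ^ a * τ d)‖ = s ^ a * nv d := hN.mono a d
  have hD0 : 0 < ‖ι (p ^ a * τ d)‖ := by rw [hD1]; positivity
  have h2 : ‖z - ι w / ι (p ^ a * τ d)‖ < ‖z‖ := by linarith
  have h3 := alg0_iso h2
  have hw : w ≠ 0 := by
    rintro rfl
    rw [map_zero, zero_div, norm_zero] at h3
    exact hz0.ne h3
  obtain ⟨i, c, h4⟩ := hD w hw
  have h5 : ‖ι w / ι (p ^ a * τ d) - ι (p ^ i * τ c) / ι (p ^ a * τ d)‖ < ‖z‖ := by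
    rw [← h3, ← sub_div, ← map_sub, norm_div, norm_div]
    exact div_lt_div_of_pos_right h4 hD0
  have h6 : ‖z - ι (p ^ i * τ c) / ι (p ^ a * τ d)‖ < ‖z‖ := by
    rw [← sub_add_sub_cancel z (ι w / ι (p ^ a * τ d))]
    exact (IsUltrametricDist.norm_add_le_max _ _).trans_lt (max_lt h2 h5)
  refine ⟨i, a, c, d, hd, norm_pos_iff.1 hD0, h6, ?_⟩
  have h7 := alg0_iso h6
  have h8 : ‖ι (p ^ i * τ c)‖ = s ^ i * nv c := hN.mono i c
  rw [norm_div, div_eq_iff hD0.ne', hD1, h8] at h7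
  exact h7.symm

theorem alg0_pow {p : ℕ} [Fact p.Prime] {L : Type} [NormedField L] [IsUltrametricDist L]
    {g : ℤ_[p] →+* L} {s : ℝ} (h0 : 0 < s) (hg : ∀ a, a ≠ 0 → ‖g a‖ = s ^ a.valuation)
    {z : L} (hz : z ≠ 0) (hA : Alg g z) :
    ∃ e v v1 : ℕ, 0 < e ∧ s ^ v = s ^ v1 * ‖z‖ ^ e := by
  obtain ⟨Q, hQ, h1⟩ := hA
  have hz0 : 0 < ‖z‖ := norm_pos_iff.2 hz
  have hn : ∀ k ∈ Q.support, ‖g (Q.coeff k) * z ^ k‖ = s ^ (Q.coeff k).valuation * ‖z‖ ^ k :=
    fun k hk => by rw [norm_mul, norm_pow, hg _ (mem_support_iff.1 hk)]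
  have key : ∀ k ∈ Q.support, ∀ l ∈ Q.support, k < l →
      ‖g (Q.coeff k) * z ^ k‖ = ‖g (Q.coeff l) * z ^ l‖ →
      ∃ e v v1 : ℕ, 0 < e ∧ s ^ v = s ^ v1 * ‖z‖ ^ e := by
    intro k hk l hl hkl h
    obtain ⟨e, rfl⟩ := Nat.exists_eq_add_of_lt hkl
    refine ⟨e + 1, (Q.coeff k).valuation, (Q.coeff (k + e + 1)).valuation, e.succ_pos, ?_⟩
    rw [hn k hk, hn _ hl] at h
    refine mul_right_cancel₀ (pow_pos hz0 k).ne' ?_
    rw [h]
    ring
  by_contra hcon
  have hs : Q.support.Nonempty := support_nonempty.2 hQ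
  have h2 := IsUltrametricDist.norm_sum_eq_sup'_of_pairwise_ne
    (f := fun k => g (Q.coeff k) * z ^ k) hs (fun k hk l hl hkl h => by
      rcases lt_or_gt_of_ne hkl with h3 | h3
      · exact hcon (key k hk l hl h3 h)
      · exact hcon (key l hl k hk h3 h.symm))
  rw [eval₂_eq_sum, Polynomial.sum] at h1
  rw [h1, norm_zero] at h2
  obtain ⟨k, hk⟩ := id hs
  have h3 := Finset.le_sup' (fun k => ‖g (Q.coeff k) * z ^ k‖) hk
  rw [← h2, hn k hk] at h3
  exact absurd h3 (not_le.2 (by positivity))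

theorem p_ALG0 (hNJ : S_NJ) :
    S_ALG0 := by
  intro p _ V W L _ _ _ _ nv τ s ι j hv h0 h1 hN hD hE hG z hA
  refine ⟨fun hz1 => ?_, fun hz1 => ?_⟩
  · by_cases hz : z = 0
    · rw [hz, norm_zero]
      exact h0.le
    have hp : ‖(p : L)‖ = s := by
      have h : ‖ι (p ^ 1 * τ 1)‖ = s ^ 1 * nv 1 := hN.mono 1 1
      simpa [hv.one] using h
    obtain ⟨e, v, v1, he, h2⟩ :=
      alg0_pow h0 (hNJ p L (ι.comp j) s h0 h1 hp fun a => hN.le_one (j a)).2 hz hA
    obtain ⟨i, a, c, d, hd, -, -, h3⟩ := alg0_apx hv h0 hN hD hE hz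
    have hd0 : 0 < nv d := lt_of_le_of_ne (hv.nonneg d) fun h => hd ((hv.eq_zero d).1 h.symm)
    have h4 : s ^ (v + a * e) * nv (d ^ e) = s ^ (v1 + i * e) * nv (c ^ e) := by
      rw [hv.pow, hv.pow, pow_add, pow_add, h2, pow_mul, pow_mul, mul_assoc (s ^ v1) (_ ^ e),
        mul_assoc (s ^ v1), mul_assoc (s ^ v1), ← mul_pow, ← mul_pow, ← mul_pow, mul_assoc, h3]
    have hde : d ^ e ≠ 0 := fun h => by
      have h5 := (hv.eq_zero _).2 h
      rw [hv.pow] at h5
      exact (pow_pos hd0 e).ne' h5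
    have h5 := hG _ _ _ _ hde h4
    rw [h5, hv.pow, hv.pow] at h4
    have h6 : nv d = nv c :=
      (pow_left_inj₀ (hv.nonneg d) (hv.nonneg c) he.ne').1 (mul_left_cancel₀ (pow_pos h0 _).ne' h4)
    rw [← h6, ← mul_assoc] at h3
    have h7 : ‖z‖ * s ^ a = s ^ i := mul_right_cancel₀ hd0.ne' h3
    have h8 : s ^ i < s ^ a := by
      rw [← h7]
      exact mul_lt_of_lt_one_left (pow_pos h0 a) hz1
    have h9 : s ^ i ≤ s ^ (a + 1) :=
      pow_le_pow_of_le_one h0.le h1.le ((pow_lt_pow_iff_right_of_lt_one₀ h0 h1).1 h8)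
    rw [← h7, pow_succ'] at h9
    exact le_of_mul_le_mul_right h9 (pow_pos h0 a)
  · have hz : z ≠ 0 := by
      rintro rfl
      simp at hz1
    obtain ⟨i, a, c, d, hd, hD0, h2, h3⟩ := alg0_apx hv h0 hN hD hE hz
    rw [hz1] at h2 h3
    rw [one_mul] at h3
    obtain rfl := hG _ _ _ _ hd h3
    obtain ⟨u, rfl⟩ := hv.dvd c d (mul_left_cancel₀ (pow_pos h0 _).ne' h3).ge
    refine ⟨u, ?_⟩
    rwa [map_mul τ, ← mul_assoc, map_mul ι _ (τ u), mul_div_cancel_left₀ _ hD0] at h2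

end Pool.Agent.P.MP_7cb106_nt.BC

/-! Step ALG. -/

set_option autoImplicit false

namespace Pool.Agent.P.MP_7cb106_nt.BC

open Polynomial

theorem alg_div {p : ℕ} [Fact p.Prime] {L : Type} [Field L] (g : ℤ_[p] →+* L) (hp : (p : L) ≠ 0)
    {y : L} (h : Alg g y) : Alg g (y / p) := by
  obtain ⟨Q, hQ, h0⟩ := h
  have hp0 : (p : ℤ_[p]) ≠ 0 := by exact_mod_cast (Fact.out : p.Prime).ne_zero
  refine ⟨Q.comp (C (p : ℤ_[p]) * X), ?_, ?_⟩
  · intro hc
    exact hQ ((comp_C_mul_X_eq_zero_iff (mem_nonZeroDivisors_of_ne_zero hp0)).1 hc)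
  · rw [eval₂_comp, eval₂_mul, eval₂_C, eval₂_X, map_natCast, mul_div_cancel₀ _ hp, h0]

theorem p_ALG (hNJ : S_NJ) (hALG0 : S_ALG0) (hALG1 : S_ALG1) :
    S_ALG := by
  intro p _ V W L _ _ _ _ _ nv τ T0 sh s ι j hV hS h0 h1 hN hD hDen hG hSpl z hz hz1
  have hps : ‖(p : L)‖ = s := by
    have := hN.mono 1 1
    simpa [hV.one] using this
  have hp : (p : L) ≠ 0 := by
    intro hc
    rw [hc, norm_zero] at hps
    exact h0.ne hps
  have hA0 := hALG0 p V W L nv τ s ι j hV h0 h1 hN hD hDen hG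
  have small : ∀ y : L, Alg (ι.comp j) y → ‖y‖ < 1 →
      Alg (ι.comp j) (y / p) ∧ ‖y / p‖ ≤ 1 := by
    intro y hy hy1
    refine ⟨alg_div _ hp hy, ?_⟩
    rw [norm_div, hps, div_le_one h0]
    exact (hA0 y hy).1 hy1
  have step : ∀ y : {y : L // Alg (ι.comp j) y ∧ ‖y‖ ≤ 1}, ∃ (r : V)
      (y' : {y : L // Alg (ι.comp j) y ∧ ‖y‖ ≤ 1}), y.1 = ι (τ r) + p * y'.1 := by
    rintro ⟨y, hy, hy1⟩
    rcases hy1.lt_or_eq with h | h
    · refine ⟨0, ⟨y / p, small y hy h⟩, ?_⟩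
      simp only [hS.zero, map_zero, zero_add]
      rw [mul_div_cancel₀ _ hp]
    · obtain ⟨u, hu⟩ := (hA0 y hy).2 h
      obtain ⟨r, hr1, hr2⟩ := hALG1 p V W L nv τ T0 sh s ι j hV hS h0 h1 hN hSpl y u hy hu
      refine ⟨r, ⟨(y - ι (τ r)) / p, small _ hr1 hr2⟩, ?_⟩
      simp only
      rw [mul_div_cancel₀ _ hp]
      ring
  choose r nxt hstep using step
  obtain ⟨w, hw⟩ := hS.ex fun i => r (nxt^[i] ⟨z, hz, hz1⟩)
  have e1 : ∀ n : ℕ, z = ∑ i ∈ Finset.range n, (p : L) ^ i * ι (τ (r (nxt^[i] ⟨z, hz, hz1⟩))) +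
      (p : L) ^ n * (nxt^[n] ⟨z, hz, hz1⟩).1 := by
    intro n
    induction n with
    | zero => simp
    | succ n ih =>
      rw [Finset.sum_range_succ, Function.iterate_succ_apply', pow_succ, mul_assoc, add_assoc,
        ← mul_add, ← hstep]
      exact ih
  have e2 : ∀ n : ℕ, ‖z - ι w‖ ≤ 2 * s ^ n := by
    intro n
    have e3 : ι w = ∑ i ∈ Finset.range n, (p : L) ^ i * ι (τ (r (nxt^[i] ⟨z, hz, hz1⟩))) +
        (p : L) ^ n * ι (sh^[n] w) := by
      conv_lhs => rw [hS.expand w n]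
      simp only [map_add, map_sum, map_mul, map_pow, map_natCast, hw]
    have e4 : z - ι w = (p : L) ^ n * ((nxt^[n] ⟨z, hz, hz1⟩).1 - ι (sh^[n] w)) := by
      linear_combination e1 n - e3
    rw [e4, norm_mul, norm_pow, hps, mul_comm]
    refine mul_le_mul_of_nonneg_right ?_ (pow_nonneg h0.le n)
    refine le_trans (norm_sub_le _ _) ?_
    have a1 := (nxt^[n] ⟨z, hz, hz1⟩).2.2
    have a2 := hN.le_one (sh^[n] w)
    linarith
  refine ⟨w, (sub_eq_zero.1 (norm_le_zero_iff.1 ?_)).symm⟩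
  have ht : Filter.Tendsto (fun n : ℕ => 2 * s ^ n) Filter.atTop (nhds (2 * 0)) :=
    (tendsto_pow_atTop_nhds_zero_of_lt_one h0.le h1).const_mul 2
  rw [mul_zero] at ht
  exact ge_of_tendsto' ht e2

end Pool.Agent.P.MP_7cb106_nt.BC

/-! Step FROB. -/

set_option autoImplicit false

namespace Pool.Agent.P.MP_7cb106_nt.BC

open Polynomial

theorem frob_sum {p : ℕ} {V W : Type} [CommRing W] {τ : V → W} {nv : V → ℝ} {s t : ℝ} {N : W → ℝ}
    (h : NP p τ nv s N) (ht : 0 ≤ t) (w u : ℕ → W) (hu : ∀ k, N (u k) ≤ t) (n : ℕ) :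
    N (∑ k ∈ Finset.range n, w k * u k) ≤ t := by
  induction n with
  | zero => simpa [(h.eq_zero 0).2 rfl] using ht
  | succ n ih =>
    rw [Finset.sum_range_succ]
    exact (h.add _ _).trans (max_le ih ((h.mul_le _ _).trans
      ((mul_le_of_le_one_left (h.nonneg _) (h.le_one _)).trans (hu n))))

theorem frob_apx {p : ℕ} {O W L : Type} [CommRing W] [NormedField L] [IsUltrametricDist L]
    {U : ℕ → O → W} {ι : W →+* L} {ρ A : ℝ} {β : O → L} (h : Lg p U ι ρ A β) (h0 : 0 ≤ ρ)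
    (h1 : ∀ x, ‖ι x‖ ≤ 1) (n m : ℕ) (w : ℕ → W) (y : ℕ → O) :
    ‖∑ k ∈ Finset.range n, ι (w k) * β (y k) -
      ι (∑ k ∈ Finset.range n, w k * U m (y k)) / (p : L) ^ m‖ ≤ A * ρ ^ m := by
  rw [map_sum, Finset.sum_div, ← Finset.sum_sub_distrib]
  refine IsUltrametricDist.norm_sum_le_of_forall_le_of_nonneg
    (mul_nonneg (zero_le_one.trans h.one_le) (pow_nonneg h0 m)) fun k _ => ?_
  rw [map_mul, mul_div_assoc, ← mul_sub, norm_mul]
  exact (mul_le_of_le_one_left (norm_nonneg _) (h1 _)).trans (h.lim m _)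

theorem p_FROB (hNORM : S_NORM) (hNPHI : S_NPHI) (hBET1 : S_BET1) :
    S_FROB := by
  intro p hp O V W L _ _ _ _ _ nv τ T0 sh φ s A ι μ β hv hs hφ s0 s1 hι hμ hL n w y h0
  have p0 := hp.out.ne_zero
  have r0 : 0 < s ^ p ^ 2 := pow_pos s0 _
  have r1 : s ^ p ^ 2 < 1 := pow_lt_one₀ s0.le s1 (pow_ne_zero 2 p0)
  have N1 := hNORM p V W nv τ T0 sh s hv hs s0 s1
  have N2 := hNORM p V W nv τ T0 sh _ hv hs r0 r1
  have N3 := hNORM p V W nv τ T0 sh _ hv hs (pow_pos s0 p) (pow_lt_one₀ s0.le s1 p0)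
  obtain ⟨B, B1, hB⟩ := hBET1 p O V W nv τ T0 sh s _ μ hs s0 s1 N1 hμ
  have hρ : s ^ p ^ 2 = (s ^ p) ^ p := by rw [← pow_mul, sq]
  have h1 : ∀ x, ‖ι x‖ ≤ 1 := fun x => hι x ▸ N2.le_one x
  have hP : ‖(p : L)‖ = s ^ p ^ 2 := by
    have := N2.mono 1 1
    rwa [← hι, map_one, mul_one, hv.one, mul_one, pow_one, pow_one, map_natCast] at this
  have hN := hNPHI p V W nv τ T0 sh φ s hv hs hφ s0 s1
  have A1 := hL.one_le
  set ρ := s ^ p ^ 2
  set S := ∑ k ∈ Finset.range n, ι (φ (w k)) * β (y k)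
  have key : ∀ m : ℕ, ‖S‖ ^ (p + 1) ≤
      (A ^ (p + 1) + (A * B ^ p) ^ p / ρ ^ (p + 1)) * ρ ^ m := fun m => by
    set R := ∑ k ∈ Finset.range n, w k * UU p τ μ m (y k) with hR
    have a1 : NN nv T0 sh ρ R ≤ A * ρ ^ m * ρ ^ m := by
      have := frob_apx hL r0.le h1 n m w y
      rwa [h0, zero_sub, norm_neg, norm_div, norm_pow, hP, div_le_iff₀ (pow_pos r0 m), hι] at this
    have a2 : NN nv T0 sh s R ≤ B * s ^ m := frob_sum N1 (by positivity) _ _ (fun k => hB m _) n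
    have a3 : φ R = ∑ k ∈ Finset.range n, φ (w k) * UU p τ μ (m + 1) (y k) := by
      simp only [hR, map_sum, map_mul, UU, map_sub, map_pow, map_one, hφ, ← pow_mul, pow_succ']
    have a4 := frob_apx hL r0.le h1 n (m + 1) (fun k => φ (w k)) y
    rw [← a3] at a4
    have a5 : ‖ι (φ R)‖ ^ (p + 1) ≤ (A * ρ ^ m * ρ ^ m * (B * s ^ m) ^ p) ^ p := by
      rw [hι]
      refine (pow_le_pow_left₀ (N2.nonneg _) (hN R).1 _).trans ?_
      rw [← pow_mul, mul_comm p, pow_mul]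
      exact pow_le_pow_left₀ (pow_nonneg (N3.nonneg _) _) ((hN R).2.trans (mul_le_mul a1
        (pow_le_pow_left₀ (N1.nonneg _) a2 p) (pow_nonneg (N1.nonneg _) _) (by positivity))) p
    have a6 : ‖ι (φ R) / (p : L) ^ (m + 1)‖ ^ (p + 1) ≤
        (A * B ^ p) ^ p / ρ ^ (p + 1) * ρ ^ m := by
      rw [norm_div, norm_pow, hP, div_pow, div_le_iff₀ (by positivity)]
      refine a5.trans ?_
      have e1 : (A * ρ ^ m * ρ ^ m * (B * s ^ m) ^ p) ^ p =
          (A * B ^ p) ^ p * (ρ ^ m) ^ (p + 1) * (ρ ^ m) ^ p := by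
        have : ((s ^ m) ^ p) ^ p = ρ ^ m := by rw [hρ]; ring
        simp only [mul_pow, this]
        ring
      have e2 : (A * B ^ p) ^ p / ρ ^ (p + 1) * ρ ^ m * (ρ ^ (m + 1)) ^ (p + 1) =
          (A * B ^ p) ^ p * (ρ ^ m) ^ (p + 1) * ρ ^ m := by
        rw [pow_succ ρ m, mul_pow (ρ ^ m)]
        field_simp
      rw [e1, e2]
      exact mul_le_mul_of_nonneg_left
        (pow_le_of_le_one (by positivity) (pow_le_one₀ r0.le r1.le) p0) (by positivity)
    have a7 : (A * ρ ^ (m + 1)) ^ (p + 1) ≤ A ^ (p + 1) * ρ ^ m := by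
      rw [mul_pow]
      exact mul_le_mul_of_nonneg_left ((pow_le_of_le_one (by positivity) (pow_le_one₀ r0.le r1.le)
        p.succ_ne_zero).trans (pow_le_pow_of_le_one r0.le r1.le m.le_succ)) (by positivity)
    have a8 := IsUltrametricDist.norm_add_le_max (S - ι (φ R) / (p : L) ^ (m + 1))
      (ι (φ R) / (p : L) ^ (m + 1))
    rw [sub_add_cancel] at a8
    rw [add_mul]
    rcases le_max_iff.1 a8 with a | a
    · exact le_add_of_le_of_nonneg
        ((pow_le_pow_left₀ (norm_nonneg _) (a.trans a4) _).trans a7) (by positivity)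
    · exact le_add_of_nonneg_of_le (by positivity)
        ((pow_le_pow_left₀ (norm_nonneg _) a _).trans a6)
  have := ge_of_tendsto' ((tendsto_pow_atTop_nhds_zero_of_lt_one r0.le r1).const_mul _) key
  rw [mul_zero] at this
  exact norm_eq_zero.1 (pow_eq_zero_iff p.succ_ne_zero |>.1 (this.antisymm (by positivity)))

end Pool.Agent.P.MP_7cb106_nt.BC

/-! Step LOG. -/

set_option autoImplicit false

namespace Pool.Agent.P.MP_7cb106_nt.BC

open Polynomial

theorem log_div (p : ℕ) [hp : Fact p.Prime] (k : ℕ) :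
    ∃ c : ℤ_[p], ((k + 1 : ℕ) : ℤ_[p]) * c = (p : ℤ_[p]) ^ k := by
  obtain ⟨v, m, hm, e⟩ := Nat.exists_eq_pow_mul_and_not_dvd k.succ_ne_zero p hp.out.ne_one
  have m0 : 0 < m := Nat.pos_of_ne_zero fun h => hm (h ▸ dvd_zero p)
  have hv : v ≤ k := by
    have h1 : v < p ^ v := Nat.lt_pow_self hp.out.one_lt
    have h2 : p ^ v ≤ p ^ v * m := Nat.le_mul_of_pos_right _ m0
    omega
  obtain ⟨w, hw⟩ := (PadicInt.isUnit_iff.2 (PadicInt.norm_natCast_eq_one_iff.2
    ((Nat.Prime.coprime_iff_not_dvd hp.out).2 hm))).exists_right_inv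
  obtain ⟨j, rfl⟩ := Nat.exists_eq_add_of_le hv
  refine ⟨w * p ^ j, ?_⟩
  rw [show v + j + 1 = p ^ v * m from e]
  push_cast
  linear_combination (p : ℤ_[p]) ^ (v + j) * hw

theorem log_bin {L : Type} [CommRing L] (u : L) (N d : ℕ) :
    (1 + u) ^ N - 1 = ∑ k ∈ Finset.range (d + N), (N.choose (k + 1) : L) * u ^ (k + 1) := by
  have h : (1 + u) ^ N = ∑ k ∈ Finset.range (d + N + 1), (N.choose k : L) * u ^ k := by
    rw [add_comm 1 u, add_pow]
    refine (Finset.sum_congr rfl fun k _ => by rw [one_pow, mul_one, mul_comm]).trans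
      (Finset.sum_subset (Finset.range_mono (by omega)) fun k _ hk => ?_)
    rw [Nat.choose_eq_zero_of_lt (by simpa using hk), Nat.cast_zero, zero_mul]
  rw [h, Finset.sum_range_succ']
  simp

theorem p_LOG (hNJ : S_NJ) :
    S_LOG := by
  intro p hp L _ _ g s A s0 s1 hs hg hA d
  have _ := hNJ
  choose c hc using log_div p
  obtain ⟨n0, hn0⟩ := exists_pow_lt_of_lt_one (show 0 < s / A by positivity) s1
  refine ⟨A ^ (d + 1) / s ^ d, n0, fun n hn => ?_⟩
  obtain ⟨N, hN⟩ : ∃ N, p ^ (d * n) = N + 1 :=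
    Nat.exists_eq_succ_of_ne_zero (pow_ne_zero _ hp.out.ne_zero)
  refine ⟨fun k => p ^ (d - k) * ((N.choose k : ℕ) * c k), fun u hu => ?_⟩
  have P0 : (p : L) ≠ 0 := by rw [← norm_pos_iff, hs]; exact s0
  have hr : A * s ^ n / s ≤ 1 := by
    have h1 := (pow_le_pow_of_le_one s0.le s1.le hn).trans hn0.le
    rw [le_div_iff₀ (by positivity)] at h1
    rw [div_le_one s0]
    linarith
  have e1 : ((1 + u) ^ p ^ (d * n) - 1) / (p : L) ^ (n + d * n) =
      ∑ k ∈ Finset.range (d + (N + 1)),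
        g ((N.choose k : ℕ) * c k) * u ^ (k + 1) / (p : L) ^ (n + k) := by
    rw [hN, log_bin u (N + 1) d, Finset.sum_div]
    refine Finset.sum_congr rfl fun k _ => ?_
    have h1 := congrArg g (hc k)
    have h2 := congrArg (Nat.cast : ℕ → L) (Nat.add_one_mul_choose_eq N k)
    rw [← hN] at h2 ⊢
    rw [map_mul, map_natCast, map_pow, map_natCast] at h1
    rw [Nat.cast_mul, Nat.cast_mul, Nat.cast_pow] at h2
    rw [div_eq_div_iff (pow_ne_zero _ P0) (pow_ne_zero _ P0), map_mul, map_natCast]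
    linear_combination (-(u ^ (k + 1) * (p : L) ^ n * g (c k))) * h2 -
      (u ^ (k + 1) * (p : L) ^ n * ((p ^ (d * n)).choose (k + 1) : L)) * h1
  have e2 : (∑ k ∈ Finset.range d, g (p ^ (d - k) * ((N.choose k : ℕ) * c k)) * u ^ (k + 1)) /
      (p : L) ^ (n + d) = ∑ k ∈ Finset.range d,
        g ((N.choose k : ℕ) * c k) * u ^ (k + 1) / (p : L) ^ (n + k) := by
    rw [Finset.sum_div]
    refine Finset.sum_congr rfl fun k hk => ?_
    obtain ⟨j, rfl⟩ := Nat.exists_eq_add_of_le (Finset.mem_range.1 hk).le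
    rw [div_eq_div_iff (pow_ne_zero _ P0) (pow_ne_zero _ P0), map_mul, map_pow, map_natCast,
      Nat.add_sub_cancel_left]
    ring
  rw [e1, e2, Finset.sum_range_add, add_sub_cancel_left]
  refine IsUltrametricDist.norm_sum_le_of_forall_le_of_nonneg (by positivity) fun j _ => ?_
  rw [norm_div, norm_mul, norm_pow, norm_pow, hs]
  calc _ ≤ 1 * (A * s ^ n) ^ (d + j + 1) / s ^ (n + (d + j)) := by gcongr; exact hg _
    _ = A ^ (d + 1) / s ^ d * s ^ (d * n) * (A * s ^ n / s) ^ j := by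
        rw [div_pow]; field_simp; ring
    _ ≤ A ^ (d + 1) / s ^ d * s ^ (d * n) * 1 := by
        gcongr; exact pow_le_one₀ (by positivity) hr
    _ = _ := mul_one _

end Pool.Agent.P.MP_7cb106_nt.BC

/-! Step APR. -/

set_option autoImplicit false

namespace Pool.Agent.P.MP_7cb106_nt.BC

open Polynomial

theorem apr_pos {V : Type} [CommRing V] {nv : V → ℝ} (hv : VA nv) {D : V} (h : D ≠ 0) :
    0 < nv D := (hv.nonneg D).lt_of_ne' fun e => h ((hv.eq_zero D).1 e)

theorem apr_den {p : ℕ} {V W L : Type} [CommRing V] [CommRing W] [NormedField L] {nv : V → ℝ}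
    {τ : V →* W} {s : ℝ} {ι : W →+* L} (hv : VA nv) (h0 : 0 < s)
    (hN : NP p τ nv s (fun x => ‖ι x‖)) (hD : Den p τ ι) (γ : ℕ → L) {ε : ℝ} (hε : 0 < ε) (m : ℕ) :
    ∃ (a : ℕ) (D : V) (w : ℕ → W), D ≠ 0 ∧ (∀ k, m ≤ k → w k = 0) ∧
      ∀ k < m, ‖γ k - ι (w k) / ι (p ^ a * τ D)‖ ≤ ε := by
  have nz : ∀ (a : ℕ) (D : V), D ≠ 0 → ι (p ^ a * τ D) ≠ 0 := fun a D h =>
    norm_pos_iff.1 ((mul_pos (pow_pos h0 a) (apr_pos hv h)).trans_eq (hN.mono a D).symm)
  induction m with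
  | zero =>
    refine ⟨0, 1, fun _ => 0, fun e => ?_, fun _ _ => rfl, fun _ h => absurd h (Nat.not_lt_zero _)⟩
    have := (hv.eq_zero 1).2 e
    rw [hv.one] at this
    exact one_ne_zero this
  | succ m ih =>
    obtain ⟨a, D, w, h1, h2, h3⟩ := ih
    obtain ⟨w', a', D', h4, h5⟩ := hD (γ m) ε hε
    have e : ι (p ^ (a + a') * τ (D * D')) = ι (p ^ a * τ D) * ι (p ^ a' * τ D') := by
      rw [← map_mul, map_mul τ]; congr 1; ring
    refine ⟨a + a', D * D', fun k => if k = m then p ^ a * τ D * w' else w k * (p ^ a' * τ D'),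
      fun e => ?_, fun k hk => ?_, fun k hk => ?_⟩
    · have := (hv.eq_zero _).2 e
      rw [hv.mul] at this
      exact (mul_pos (apr_pos hv h1) (apr_pos hv h4)).ne' this
    · simp only [if_neg (show k ≠ m by omega), h2 k (by omega), zero_mul]
    · by_cases c : k = m
      · simp only [if_pos c]
        rw [e, map_mul ι _ w', mul_div_mul_left _ _ (nz a D h1), c]
        exact h5
      · simp only [if_neg c]
        rw [e, map_mul ι (w k), mul_div_mul_right _ _ (nz a' D' h4)]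
        exact h3 k (by omega)

theorem p_APR (hNJ : S_NJ) (hLOG : S_LOG) :
    S_APR := by
  intro p _ O V W L _ _ _ _ _ _ nv τ s A ι j μ β hv h0 h1 hN hD hL l m γ y hl d
  have hp : ‖(p : L)‖ = s := by
    have := hN.mono 1 1
    simpa [hv.one] using this
  have hp0 : (p : L) ≠ 0 := norm_pos_iff.1 (hp ▸ h0)
  have hA := hL.one_le
  obtain ⟨B0, n0, hB⟩ := hLOG p L (ι.comp j) s A h0 h1 hp (fun a => hN.le_one _) hA d
  obtain ⟨Γ, hΓ, g1⟩ : ∃ Γ : ℝ, 1 ≤ Γ ∧ ∀ k < m, ‖γ k‖ + 1 ≤ Γ :=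
    ⟨∑ k ∈ Finset.range m, ‖γ k‖ + 1, le_add_of_nonneg_left
      (Finset.sum_nonneg fun _ _ => norm_nonneg _), fun k hk => add_le_add_left
        (Finset.single_le_sum (fun _ _ => norm_nonneg _) (Finset.mem_range.2 hk)) 1⟩
  have hC : 0 ≤ (m : ℝ) * (Γ * (A + |B0|) + A) := by positivity
  refine ⟨Γ + m * (Γ * (A + |B0|) + A), n0, by linarith, fun n hn => ?_⟩
  obtain ⟨e, he⟩ := hB n hn
  have hε : 0 < s ^ (d * n) := pow_pos h0 _
  have hε1 : s ^ (d * n) ≤ 1 := pow_le_one₀ h0.le h1.le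
  obtain ⟨a, D, w, d1, d2, d3⟩ := apr_den hv h0 hN hD γ hε m
  have hM : ‖ι (p ^ a * τ D)‖ = s ^ a * nv D := hN.mono a D
  have hν : 0 < s ^ a * nv D := mul_pos (pow_pos h0 a) (apr_pos hv d1)
  have hM0 : ι (p ^ a * τ D) ≠ 0 := norm_pos_iff.1 (hM ▸ hν)
  have q1 : ∀ k < m, ‖ι (w k) / ι (p ^ a * τ D)‖ ≤ Γ := fun k hk => by
    have := norm_sub_norm_le (ι (w k) / ι (p ^ a * τ D)) (γ k)
    rw [norm_sub_rev] at this
    linarith [d3 k hk, g1 k hk]
  refine ⟨a, D, w, e, d1, fun k => ?_, fun x => ?_⟩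
  · rw [mul_assoc]
    rcases lt_or_ge k m with hk | hk
    · have := q1 k hk
      rw [norm_div, hM, div_le_iff₀ hν] at this
      exact this.trans (mul_le_mul_of_nonneg_right (by linarith) hν.le)
    · rw [d2 k hk, map_zero, norm_zero]
      positivity
  have q2 : ∀ z, ‖(∑ i ∈ Finset.range d, ι (j (e i)) * ι (UU p τ μ n z) ^ (i + 1)) /
      (p : L) ^ (n + d) - β z‖ ≤ (A + |B0|) * s ^ (d * n) := fun z => by
    have a1 := he _ (hL.small n z)
    have a2 := hL.lim (n + d * n) z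
    have a3 : ι (UU p τ μ (n + d * n) z) = (1 + ι (UU p τ μ n z)) ^ p ^ (d * n) - 1 := by
      simp only [UU, map_sub, map_one, map_pow, add_sub_cancel, ← pow_mul, ← pow_add]
    rw [a3] at a2
    have a4 : s ^ (n + d * n) ≤ s ^ (d * n) := pow_le_pow_of_le_one h0.le h1.le (by omega)
    have a5 := mul_le_mul_of_nonneg_right (le_abs_self B0) hε.le
    have a6 := mul_le_mul_of_nonneg_left a4 (show 0 ≤ A by linarith)
    rw [norm_sub_rev]
    refine (norm_sub_le_norm_sub_add_norm_sub _ _ _).trans ((add_le_add a2 a1).trans ?_)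
    linarith
  have e1 : ι (∑ k ∈ Finset.range m, w k * ∑ i ∈ Finset.range d,
      j (e i) * UU p τ μ n (y k * x) ^ (i + 1) - p ^ (a + n + d) * (τ D * j (l x))) =
      ι (p ^ a * τ D) * (p : L) ^ (n + d) * ∑ k ∈ Finset.range m, (ι (w k) / ι (p ^ a * τ D) *
        ((∑ i ∈ Finset.range d, ι (j (e i)) * ι (UU p τ μ n (y k * x)) ^ (i + 1)) /
          (p : L) ^ (n + d)) - γ k * β (y k * x)) := by
    rw [Finset.sum_sub_distrib, mul_sub, ← hl, map_sub, map_sum, Finset.mul_sum]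
    congr 1
    · refine Finset.sum_congr rfl fun k _ => ?_
      rw [map_mul, map_sum]
      simp only [map_mul ι (j _), map_pow ι (UU p τ μ n _)]
      field_simp
    · simp only [map_mul, map_pow, map_natCast]
      ring
  rw [e1, norm_mul, norm_mul, hM, norm_pow, hp]
  refine mul_le_mul (le_of_eq (by ring)) ((norm_sum_le_of_le _
    (n := fun _ => (Γ * (A + |B0|) + A) * s ^ (d * n)) fun k hk => ?_).trans ?_) (norm_nonneg _)
    (mul_pos (pow_pos h0 _) (apr_pos hv d1)).le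
  · have hk' := Finset.mem_range.1 hk
    have a1 := mul_le_mul (q1 k hk') (q2 (y k * x)) (norm_nonneg _) (by linarith)
    have a2 := mul_le_mul (d3 k hk') (hL.bdd (y k * x)) (norm_nonneg _) hε.le
    rw [← norm_mul] at a1 a2
    refine le_trans (le_of_eq (congrArg _ (by ring))) ((norm_sub_le _ _).trans
      ((add_le_add a1 a2).trans (le_of_eq (by ring))))
  · rw [Finset.sum_const, Finset.card_range, nsmul_eq_mul, ← mul_assoc]
    exact mul_le_mul_of_nonneg_right (by linarith) hε.le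

end Pool.Agent.P.MP_7cb106_nt.BC

/-! Step EXT. -/

set_option autoImplicit false

namespace Pool.Agent.P.MP_7cb106_nt.BC

open Polynomial

theorem ext_mul {p : ℕ} {V W W' : Type} [CommRing W] [CommRing W'] {τ : V → W} {τ' : V → W'}
    {nv : V → ℝ} {s t : ℝ} (F : W →+* W') (hF : ∀ c, F (τ c) = τ' c) {z : W}
    (hz : z ∈ SS p τ nv s t) (u : W') : F z * u ∈ SS p τ' nv s t := by
  induction hz using AddSubgroup.closure_induction with
  | mem x hx =>
    obtain ⟨i, c, w, h1, rfl⟩ := hx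
    refine AddSubgroup.subset_closure ⟨i, c, F w * u, h1, ?_⟩
    rw [map_mul, map_mul, map_pow, map_natCast, hF, mul_assoc]
  | zero => rw [map_zero, zero_mul]; exact zero_mem _
  | add x y _ _ hx hy => rw [map_add, add_mul]; exact add_mem hx hy
  | neg x _ hx => rw [map_neg, neg_mul]; exact neg_mem hx

theorem ext_cc {p : ℕ} [Fact p.Prime] {V : Type} [CommRing V] [CharP V p] (g : ℤ_[p] →+* V)
    (a : ℤ_[p]) : g a = ZMod.castHom (dvd_refl p) V (PadicInt.toZMod a) := by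
  have h1 : a - ((PadicInt.toZMod a).val : ℕ) ∈ RingHom.ker (PadicInt.toZMod (p := p)) := by
    rw [RingHom.mem_ker, map_sub, map_natCast, ZMod.natCast_zmod_val, sub_self]
  rw [PadicInt.ker_toZMod, PadicInt.maximalIdeal_eq_span_p, Ideal.mem_span_singleton] at h1
  obtain ⟨b, hb⟩ := h1
  have h2 : a = ((PadicInt.toZMod a).val : ℕ) + p * b := by rw [← hb]; ring
  have h3 : g a = ((PadicInt.toZMod a).val : ℕ) := by
    conv_lhs => rw [h2]
    rw [map_add, map_mul, map_natCast, map_natCast, CharP.cast_eq_zero V p, zero_mul, add_zero]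
  rw [h3, ← map_natCast (ZMod.castHom (dvd_refl p) V), ZMod.natCast_zmod_val]

theorem p_EXT (hWIT : S_WIT) (hCOEF : S_COEF) (hNORM : S_NORM) (hRPF : S_RPF) :
    S_EXT := by
  intro p _ O V _ _ _ _ nv sh s j μ hV hS hs0 hs1 hμ l m d n J D w e y t ε ht hw hx
  obtain ⟨R, _, _, _, f, χ, ev, hf, hχ, hR⟩ := hRPF p O V μ hμ.zero hμ.add
  obtain ⟨shR, hSR⟩ := hWIT p R
  have hN := hNORM p V _ nv _ _ sh s hV hS hs0 hs1
  have hG : (∑ k ∈ Finset.range m, WittVector.map f (w k) * ∑ i ∈ Finset.range d,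
      WittVector.map f (j (e i)) * (WittVector.teichmuller p (χ (y k)) ^ p ^ n - 1) ^ (i + 1)) ∈
      SS p (fun c => WittVector.teichmuller p (f c)) nv s t :=
    sum_mem fun k _ => ext_mul (WittVector.map f) (fun c => WittVector.map_teichmuller p f c)
      ((hN.mem t _ ht).1 (hw k)) _
  obtain ⟨c, a, hc, ha⟩ := hCOEF p V R _ nv f _ _ shR s hV hSR hs0 hs1.le J t _ ht.le hG
  refine ⟨c, fun x => ev x a, hc, fun x => ?_, hR a⟩
  have h1 : ∀ z : WittVector p V, WittVector.map (ev x) (WittVector.map f z) = z := fun z => by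
    ext i; rw [WittVector.map_coeff, WittVector.map_coeff, hf]
  have h2 := hSR.nat hS (ev x) (WittVector.map (ev x))
    (fun c => WittVector.map_teichmuller p (ev x) c) J
    (∑ k ∈ Finset.range m, WittVector.map f (w k) * ∑ i ∈ Finset.range d,
      WittVector.map f (j (e i)) * (WittVector.teichmuller p (χ (y k)) ^ p ^ n - 1) ^ (i + 1))
  rw [ha, map_mul, hf] at h2
  simp only [map_sum, map_mul, map_pow, map_sub, map_one, h1, WittVector.map_teichmuller,
    hχ] at h2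
  have h3 := (le_NN hV hs0.le hs1.le _ J).trans (hx x)
  rw [sub_eq_add_neg, ← mul_neg, hS.iter_add_mul, map_add, map_neg, map_mul, hS.res] at h3
  simp only [UU] at h3
  rw [h2] at h3
  have h4 := ext_cc (WittVector.constantCoeff.comp j) (l x)
  rw [RingHom.comp_apply] at h4
  rw [h4] at h3
  rw [← hV.neg, neg_sub, sub_eq_add_neg]
  exact le_of_mul_le_mul_left h3 (pow_pos hs0 J)

end Pool.Agent.P.MP_7cb106_nt.BC
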