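import Pool.Agent.P.MP_7cb106_nt.BC.B1
import Pool.Agent.P.MP_7cb106_nt.BC.B2
import Pool.Agent.P.MP_7cb106_nt.BC.B3

/-! All steps together. -/

set_option autoImplicit false

namespace Pool.Agent.P.MP_7cb106_nt.BC

theorem all_WIT : S_WIT := p_WIT
theorem all_WZP : S_WZP := p_WZP
theorem all_COEF : S_COEF := p_COEF
theorem all_NORM : S_NORM := p_NORM all_COEF
theorem all_DOM : S_DOM := p_DOM all_NORM
theorem all_NMUL : S_NMUL := p_NMUL
theorem all_NPHI : S_NPHI := p_NPHI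
theorem all_LL : S_LL := p_LL
theorem all_DENSE : S_DENSE := p_DENSE
theorem all_NJ : S_NJ := p_NJ
theorem all_ALG0 : S_ALG0 := p_ALG0 all_NJ
theorem all_ALG1 : S_ALG1 := p_ALG1 all_NJ
theorem all_ALG : S_ALG := p_ALG all_NJ all_ALG0 all_ALG1
theorem all_BET1 : S_BET1 := p_BET1
theorem all_BET2 : S_BET2 := p_BET2
theorem all_BET3 : S_BET3 := p_BET3 all_NJ
theorem all_FROB : S_FROB := p_FROB all_NORM all_NPHI all_BET1
theorem all_NV0 : S_NV0 := p_NV0
theorem all_NV1 : S_NV1 := p_NV1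
theorem all_NV2 : S_NV2 := p_NV2 all_NV0
theorem all_LOG : S_LOG := p_LOG all_NJ
theorem all_APR : S_APR := p_APR all_NJ all_LOG
theorem all_RPF : S_RPF := p_RPF
theorem all_EXT : S_EXT := p_EXT all_WIT all_COEF all_NORM all_RPF
theorem all_GENF : S_GENF := p_GENF
theorem all_SPL : S_SPL := p_SPL
theorem all_RHO : S_RHO := p_RHO
theorem all_DV : S_DV := p_DV all_WIT all_WZP all_NORM all_DOM all_NMUL all_LL all_DENSE all_NJ all_ALG all_BET1 all_BET2 all_BET3 all_FROB all_NV1 all_NV2 all_APR all_EXT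
theorem all_DPF : S_DPF := p_DPF all_GENF all_SPL all_RHO all_DV

theorem all_DP : S_DP := all_DPF

end Pool.Agent.P.MP_7cb106_nt.BC
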