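import Pool.Agent.P.MP_7cb106_nt.BC.Iface

/-! Step NORM. -/

set_option autoImplicit false

namespace Pool.Agent.P.MP_7cb106_nt.BC

open Polynomial

theorem norm_mul_mem {p : ℕ} {V W : Type} [CommRing V] [CommRing W] {nv : V → ℝ} {τ : V →* W}
    {s t t' : ℝ} (hv : VA nv) (h0 : 0 < s) {x y : W} (hx : x ∈ SS p τ nv s t)
    (hy : y ∈ SS p τ nv s t') : x * y ∈ SS p τ nv s (t * t') := by
  induction hx using AddSubgroup.closure_induction with
  | zero => rw [zero_mul]; exact zero_mem _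
  | add a b _ _ ha hb => rw [add_mul]; exact add_mem ha hb
  | neg a _ ha => rw [neg_mul]; exact neg_mem ha
  | mem a ha =>
    obtain ⟨i, c, w, hc, rfl⟩ := ha
    induction hy using AddSubgroup.closure_induction with
    | zero => rw [mul_zero]; exact zero_mem _
    | add a b _ _ ha hb => rw [mul_add]; exact add_mem ha hb
    | neg a _ ha => rw [mul_neg]; exact neg_mem ha
    | mem b hb =>
      obtain ⟨j, d, v, hd, rfl⟩ := hb
      refine AddSubgroup.subset_closure ⟨i + j, c * d, w * v, ?_, by rw [map_mul]; ring⟩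
      have a1 : 0 ≤ s ^ i * nv c := mul_nonneg (pow_nonneg h0.le _) (hv.nonneg _)
      have a2 : 0 ≤ s ^ j * nv d := mul_nonneg (pow_nonneg h0.le _) (hv.nonneg _)
      calc _ = s ^ i * nv c * (s ^ j * nv d) := by rw [hv.mul]; ring
        _ ≤ _ := mul_le_mul hc hd a2 (a1.trans hc)

theorem p_NORM (hCOEF : S_COEF) :
    S_NORM := by
  intro p V W _ _ nv τ T0 sh s hv hs h0 h1
  have back : ∀ t x, 0 ≤ t → x ∈ SS p τ nv s t → NN nv T0 sh s x ≤ t := fun t x ht hx =>
    NN_le fun i => by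
      obtain ⟨c, w, e1, e2⟩ := hCOEF p V V W nv (RingHom.id V) τ T0 sh s hv hs h0 h1.le i t x ht hx
      rw [e2, RingHom.id_apply, hv.mul]
      exact (mul_le_mul_of_nonneg_left (mul_le_of_le_one_right (hv.nonneg _) (hv.le_one _))
        (pow_nonneg h0.le _)).trans e1
  have le := fun x i => le_NN (T0 := T0) (sh := sh) hv h0.le h1.le x i
  have fwd : ∀ t x, 0 < t → NN nv T0 sh s x ≤ t → x ∈ SS p τ nv s t := fun t x ht hx => by
    obtain ⟨n, hn⟩ := exists_pow_lt_of_lt_one ht h1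
    rw [hs.expand x n]
    refine add_mem (sum_mem fun i _ => AddSubgroup.subset_closure
      ⟨i, _, 1, (le x i).trans hx, (mul_one _).symm⟩) (AddSubgroup.subset_closure
      ⟨n, 1, sh^[n] x, ?_, by rw [map_one, mul_one]⟩)
    rw [hv.one, mul_one]
    exact hn.le
  have nn : ∀ x, 0 ≤ NN nv T0 sh s x := fun x =>
    (mul_nonneg (pow_nonneg h0.le _) (hv.nonneg _)).trans (le x 0)
  have nv0 : nv 0 = 0 := (hv.eq_zero 0).2 rfl
  have sh0 : sh 0 = 0 := (hs.uniq (c := 0) (y := 0) (by rw [hs.zero, mul_zero, add_zero])).2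
  have it0 : ∀ i, T0 (sh^[i] 0) = 0 := fun i => by rw [Function.iterate_fixed sh0, map_zero]
  have ez : ∀ x, NN nv T0 sh s x = 0 ↔ x = 0 := fun x => by
    refine ⟨fun e => hs.ext fun i => ?_, fun e => e ▸ (back 0 0 le_rfl (zero_mem _)).antisymm (nn 0)⟩
    have := le x i
    rw [e] at this
    rw [it0, ← hv.eq_zero]
    exact le_antisymm (le_of_mul_le_mul_left (by rwa [mul_zero]) (pow_pos h0 i)) (hv.nonneg _)
  have ng : ∀ x, NN nv T0 sh s (-x) ≤ NN nv T0 sh s x := fun x =>
    le_of_forall_pos_le_add fun ε hε => back _ _ (by linarith [nn x])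
      (neg_mem (fwd _ _ (by linarith [nn x]) (by linarith)))
  have pm : ∀ x, NN nv T0 sh s (p * x) = s * NN nv T0 sh s x := fun x => by
    obtain ⟨e1, e2⟩ := hs.uniq (x := p * x) (c := 0) (y := x) (by rw [hs.zero, zero_add])
    refine le_antisymm (NN_le fun i => ?_) ?_
    · cases i with
      | zero =>
        rw [Function.iterate_zero_apply, e1, nv0, mul_zero]
        exact mul_nonneg h0.le (nn x)
      | succ i =>
        rw [Function.iterate_succ_apply, e2, pow_succ', mul_assoc]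
        exact mul_le_mul_of_nonneg_left (le x i) h0.le
    · rw [← le_div_iff₀' h0]
      refine NN_le fun i => ?_
      have := le (p * x) (i + 1)
      rw [Function.iterate_succ_apply, e2, pow_succ', mul_assoc] at this
      rwa [le_div_iff₀' h0]
  refine ⟨nn, fun x => NN_le fun i => NN_bdd hv h0.le h1.le x i, ez, fun x y => ?_,
    fun x => (ng x).antisymm (by simpa only [neg_neg] using ng (-x)), fun x y => ?_,
    fun i c => ?_, pm, fun t x ht => ⟨fwd t x ht, back t x ht.le⟩⟩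
  · have a := le_max_left (NN nv T0 sh s x) (NN nv T0 sh s y)
    have b := le_max_right (NN nv T0 sh s x) (NN nv T0 sh s y)
    exact le_of_forall_pos_le_add fun ε hε => back _ _ (by linarith [nn x])
      (add_mem (fwd _ _ (by linarith [nn x]) (by linarith))
        (fwd _ _ (by linarith [nn x]) (by linarith)))
  · have m := mul_nonneg (nn x) (nn y)
    rcases (nn x).eq_or_lt with a | a
    · rw [(ez x).1 a.symm, zero_mul, (ez 0).2 rfl, zero_mul]
    rcases (nn y).eq_or_lt with b | b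
    · rw [(ez y).1 b.symm, mul_zero, (ez 0).2 rfl, mul_zero]
    exact back _ _ m (norm_mul_mem hv h0 (fwd _ _ a le_rfl) (fwd _ _ b le_rfl))
  · induction i with
    | succ i ih => rw [pow_succ', mul_assoc, pm, ih, pow_succ', mul_assoc]
    | zero =>
      obtain ⟨e1, e2⟩ := hs.uniq (x := τ c) (c := c) (y := 0) (by rw [mul_zero, add_zero])
      rw [pow_zero, one_mul]
      have l0 := le (τ c) 0
      rw [Function.iterate_zero_apply, e1] at l0
      refine le_antisymm (NN_le fun i => ?_) l0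
      cases i with
      | zero => rw [Function.iterate_zero_apply, e1]
      | succ i =>
        rw [Function.iterate_succ_apply, e2, it0, nv0, mul_zero, pow_zero, one_mul]
        exact hv.nonneg c

end Pool.Agent.P.MP_7cb106_nt.BC

/-! Step DOM. -/

set_option autoImplicit false

namespace Pool.Agent.P.MP_7cb106_nt.BC

open Polynomial

theorem dom_att (f : ℕ → ℝ) (s N : ℝ) (h0 : 0 < s) (h1 : s < 1) (hf : ∀ i, f i ≤ s ^ i)
    (hle : ∀ i, f i ≤ N) (hN : ∀ t, (∀ i, f i ≤ t) → N ≤ t) (hpos : 0 < N) : ∃ i, f i = N := by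
  obtain ⟨n, hn⟩ := exists_pow_lt_of_lt_one hpos h1
  obtain ⟨m, -, hm⟩ := Finset.exists_max_image (Finset.range (n + 1)) f ⟨0, by simp⟩
  refine ⟨m, le_antisymm (hle m) ?_⟩
  have h2 : N ≤ max (f m) (s ^ n) := by
    refine hN _ fun i => ?_
    rcases le_total i n with h | h
    · exact le_max_of_le_left (hm i (Finset.mem_range.2 (Nat.lt_succ_of_le h)))
    · exact le_max_of_le_right ((hf i).trans (pow_le_pow_of_le_one h0.le h1.le h))
  rcases le_max_iff.1 h2 with h | h
  · exact h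
  · exact absurd hn (not_lt.2 h)

theorem dom_coef {p : ℕ} {V W : Type} [CommRing V] [CommRing W] {τ : V →* W} {T0 : W →+* V}
    {sh : W → W} (h : SP p τ T0 sh) (i : ℕ) : ∀ (x : W) (j : ℕ),
    T0 (sh^[j] (x - p ^ i * τ (T0 (sh^[i] x)))) = if j = i then 0 else T0 (sh^[j] x) := by
  induction i with
  | zero =>
    intro x j
    have e : x - (p : W) ^ 0 * τ (T0 (sh^[0] x)) = τ 0 + p * sh x := by
      rw [h.zero, pow_zero, one_mul, zero_add, Function.iterate_zero_apply, sub_eq_iff_eq_add']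
      exact h.dec x
    obtain ⟨e1, e2⟩ := h.uniq e
    cases j with
    | zero => simpa using e1
    | succ j =>
      rw [Function.iterate_succ_apply, e2, if_neg (Nat.succ_ne_zero j),
        Function.iterate_succ_apply]
  | succ i ih =>
    intro x j
    have e : x - (p : W) ^ (i + 1) * τ (T0 (sh^[i + 1] x)) =
        x + p * (-((p : W) ^ i * τ (T0 (sh^[i] (sh x))))) := by
      rw [Function.iterate_succ_apply]
      ring
    obtain ⟨e1, e2⟩ := h.sh_add_mul x (-((p : W) ^ i * τ (T0 (sh^[i] (sh x)))))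
    rw [e]
    cases j with
    | zero =>
      rw [if_neg (Nat.succ_ne_zero i).symm]
      exact e1
    | succ j =>
      rw [Function.iterate_succ_apply, e2, ← sub_eq_add_neg, ih, Function.iterate_succ_apply]
      simp

theorem p_DOM (hNORM : S_NORM) :
    S_DOM := by
  intro p V W _ _ nv τ T0 sh s hv hs h0 h1 hg x hx
  have hN := hNORM p V W nv τ T0 sh s hv hs h0 h1
  have att : ∀ y : W, 0 < NN nv T0 sh s y →
      ∃ i, s ^ i * nv (T0 (sh^[i] y)) = NN nv T0 sh s y := fun y hy =>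
    dom_att (fun i => s ^ i * nv (T0 (sh^[i] y))) s _ h0 h1
      (fun i => mul_le_of_le_one_right (pow_pos h0 i).le (hv.le_one _))
      (fun i => le_NN hv h0.le h1.le y i) (fun t ht => NN_le ht) hy
  have hpos : 0 < NN nv T0 sh s x :=
    lt_of_le_of_ne (hN.nonneg x) fun e => hx ((hN.eq_zero x).1 e.symm)
  obtain ⟨i, hi⟩ := att x hpos
  have hz : nv 0 = 0 := (hv.eq_zero 0).2 rfl
  refine ⟨i, T0 (sh^[i] x), lt_of_le_of_ne (NN_le fun j => ?_) fun e => ?_⟩
  · rw [dom_coef hs i x j]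
    split_ifs with hj
    · rw [hz, mul_zero]
      exact hpos.le
    · exact le_NN hv h0.le h1.le x j
  · obtain ⟨j, hj⟩ := att _ (e ▸ hpos)
    rw [dom_coef hs i x j, e] at hj
    split_ifs at hj with hji
    · rw [hz, mul_zero] at hj
      exact hpos.ne hj
    · have hne : T0 (sh^[i] x) ≠ 0 := by
        intro e0
        rw [e0, hz, mul_zero] at hi
        exact hpos.ne hi
      exact hji (hg i j _ _ hne (hi.trans hj.symm)).symm

end Pool.Agent.P.MP_7cb106_nt.BC

/-! Step NMUL. -/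

set_option autoImplicit false

namespace Pool.Agent.P.MP_7cb106_nt.BC

open Polynomial

theorem nmul_eq {W : Type} [CommRing W] (N : W → ℝ)
    (hadd : ∀ x y, N (x + y) ≤ max (N x) (N y)) (hneg : ∀ x, N (-x) = N x)
    (a b : W) (h : N (a - b) < N a) : N b = N a := by
  have h1 : N a ≤ max (N (a - b)) (N b) := by
    have := hadd (a - b) b
    rwa [sub_add_cancel] at this
  have h2 : N b ≤ max (N (a - b)) (N a) := by
    have := hadd (-(a - b)) a
    rw [hneg] at this
    have e : -(a - b) + a = b := by ring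
    rwa [e] at this
  rcases le_max_iff.1 h1 with h3 | h3
  · exact absurd h3 (not_le.2 h)
  · rcases le_max_iff.1 h2 with h4 | h4
    · exact le_antisymm (h4.trans h.le) h3
    · exact le_antisymm h4 h3

theorem p_NMUL :
    S_NMUL := by
  intro p V W _ _ nv τ s N hV hN hD x y
  have h0 : N 0 = 0 := (hN.eq_zero 0).2 rfl
  by_cases hx : x = 0
  · subst hx; simp [h0]
  by_cases hy : y = 0
  · subst hy; simp [h0]
  obtain ⟨i, c, hi⟩ := hD x hx
  obtain ⟨j, d, hj⟩ := hD y hy
  have hxp : 0 < N x := lt_of_le_of_ne (hN.nonneg x) (fun h => hx ((hN.eq_zero x).1 h.symm))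
  have hyp : 0 < N y := lt_of_le_of_ne (hN.nonneg y) (fun h => hy ((hN.eq_zero y).1 h.symm))
  set m : W := (p : W) ^ i * τ c with hm
  set m' : W := (p : W) ^ j * τ d with hm'
  have e1 : N m = N x := nmul_eq N hN.add hN.neg x m hi
  have e2 : N m' = N y := nmul_eq N hN.add hN.neg y m' hj
  have e3 : N (m * m') = N x * N y := by
    have : m * m' = (p : W) ^ (i + j) * τ (c * d) := by
      rw [hm, hm', map_mul, pow_add]; ring
    rw [this, hN.mono, ← e1, ← e2, hm, hm', hN.mono, hN.mono, hV.mul, pow_add]; ring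
  have e4 : N (m * m' - x * y) < N (m * m') := by
    have e : m * m' - x * y = -(x * (y - m') + (x - m) * m') := by ring
    rw [e, hN.neg, e3]
    refine lt_of_le_of_lt (hN.add _ _) (max_lt ?_ ?_)
    · exact lt_of_le_of_lt (hN.mul_le _ _) (mul_lt_mul_of_pos_left hj hxp)
    · refine lt_of_le_of_lt (hN.mul_le _ _) ?_
      rw [e2]
      exact mul_lt_mul_of_pos_right hi hyp
  rw [nmul_eq N hN.add hN.neg (m * m') (x * y) e4, e3]

end Pool.Agent.P.MP_7cb106_nt.BC

/-! Step LL. -/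

set_option autoImplicit false

namespace Pool.Agent.P.MP_7cb106_nt.BC

open Polynomial

theorem ll_abs (W : Type) [CommRing W] [IsDomain W] (N : W → ℝ) (h0 : ∀ x, 0 ≤ N x)
    (hz : ∀ x, N x = 0 ↔ x = 0) (ha : ∀ x y, N (x + y) ≤ max (N x) (N y))
    (hm : ∀ x y, N (x * y) = N x * N y) :
    ∃ n : FractionRing W → ℝ, (∀ a b, b ≠ 0 →
      n (algebraMap W (FractionRing W) a / algebraMap W (FractionRing W) b) = N a / N b) ∧
      (∀ x, 0 ≤ n x) ∧ (∀ x, n x = 0 ↔ x = 0) ∧ (∀ x y, n (x * y) = n x * n y) ∧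
      ∀ x y, n (x + y) ≤ max (n x) (n y) := by
  have hs : ∀ z : FractionRing W, ∃ a b, b ≠ 0 ∧
      z = algebraMap W (FractionRing W) a / algebraMap W (FractionRing W) b := fun z => by
    obtain ⟨a, b, hb, e⟩ := IsFractionRing.div_surjective (A := W) z
    exact ⟨a, b, nonZeroDivisors.ne_zero hb, e.symm⟩
  have hi := IsFractionRing.injective W (FractionRing W)
  have hn : ∀ {b : W}, b ≠ 0 → algebraMap W (FractionRing W) b ≠ 0 := fun hb =>
    (map_ne_zero_iff _ hi).2 hb
  have hp : ∀ {b : W}, b ≠ 0 → 0 < N b := fun hb => (h0 _).lt_of_ne' fun h => hb ((hz _).1 h)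
  choose A B hB e using id hs
  have key : ∀ a b, b ≠ 0 →
      N (A (algebraMap W (FractionRing W) a / algebraMap W (FractionRing W) b)) /
        N (B (algebraMap W (FractionRing W) a / algebraMap W (FractionRing W) b)) = N a / N b := by
    intro a b hb
    have := e (algebraMap W (FractionRing W) a / algebraMap W (FractionRing W) b)
    rw [div_eq_div_iff (hn hb) (hn (hB _)), ← map_mul, ← map_mul] at this
    rw [div_eq_div_iff (hp (hB _)).ne' (hp hb).ne', ← hm, ← hm, hi this]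
  refine ⟨fun z => N (A z) / N (B z), key, fun x => div_nonneg (h0 _) (h0 _), fun x => ?_,
    fun x y => ?_, fun x y => ?_⟩
  · obtain ⟨a, b, hb, rfl⟩ := hs x
    beta_reduce
    rw [key a b hb, div_eq_zero_iff, div_eq_zero_iff, hz, hz, map_eq_zero_iff _ hi,
      map_eq_zero_iff _ hi]
  · obtain ⟨a, b, hb, rfl⟩ := hs x
    obtain ⟨c, d, hd, rfl⟩ := hs y
    beta_reduce
    rw [key a b hb, key c d hd, div_mul_div_comm, ← map_mul, ← map_mul,
      key _ _ (mul_ne_zero hb hd), hm, hm, div_mul_div_comm]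
  · obtain ⟨a, b, hb, rfl⟩ := hs x
    obtain ⟨c, d, hd, rfl⟩ := hs y
    beta_reduce
    rw [key a b hb, key c d hd, div_add_div _ _ (hn hb) (hn hd), ← map_mul, ← map_mul, ← map_mul,
      ← map_add, key _ _ (mul_ne_zero hb hd), hm, div_le_iff₀ (mul_pos (hp hb) (hp hd))]
    refine (ha _ _).trans (max_le ?_ ?_)
    · calc N (a * d) = N a / N b * (N b * N d) := by rw [hm]; field_simp [(hp hb).ne']
        _ ≤ _ := mul_le_mul_of_nonneg_right (le_max_left _ _) (mul_pos (hp hb) (hp hd)).le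
    · calc N (b * c) = N c / N d * (N b * N d) := by rw [hm]; field_simp [(hp hd).ne']
        _ ≤ _ := mul_le_mul_of_nonneg_right (le_max_right _ _) (mul_pos (hp hb) (hp hd)).le

theorem p_LL :
    S_LL := by
  intro W _ N h0 hz h1 ha _ hm
  have : Nontrivial W := ⟨1, 0, fun h => by
    rw [(hz 1).2 h] at h1
    exact zero_ne_one h1⟩
  have : NoZeroDivisors W := ⟨fun {a b} h => by
    rw [← hz, hm, mul_eq_zero, hz, hz] at h
    exact h⟩
  have : IsDomain W := NoZeroDivisors.to_isDomain W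
  obtain ⟨n, k, n0, nz, nm, na⟩ := ll_abs W N h0 hz ha hm
  let v : AbsoluteValue (FractionRing W) ℝ :=
    { toFun := n
      map_mul' := nm
      nonneg' := n0
      eq_zero' := nz
      add_le' := fun x y => (na x y).trans (max_le (le_add_of_nonneg_right (n0 _))
        (le_add_of_nonneg_left (n0 _))) }
  let : NormedField (FractionRing W) := v.toNormedField
  have : IsUltrametricDist (FractionRing W) :=
    IsUltrametricDist.isUltrametricDist_of_forall_norm_add_le_max_norm na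
  have hu : IsUltrametricDist (UniformSpace.Completion (FractionRing W)) :=
    IsUltrametricDist.isUltrametricDist_of_forall_norm_add_le_max_norm fun x y => by
      induction x, y using UniformSpace.Completion.induction_on₂ with
      | hp => exact isClosed_le (by fun_prop) (by fun_prop)
      | ih a b =>
        rw [← UniformSpace.Completion.coe_add, UniformSpace.Completion.norm_coe,
          UniformSpace.Completion.norm_coe, UniformSpace.Completion.norm_coe]
        exact na a b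
  refine ⟨UniformSpace.Completion (FractionRing W), inferInstance, hu, inferInstance,
    (UniformSpace.Completion.coeRingHom).comp (algebraMap W (FractionRing W)), fun x => ?_,
    fun z ε hε => ?_⟩
  · have := k x 1 one_ne_zero
    rw [map_one, div_one, h1, div_one] at this
    exact (UniformSpace.Completion.norm_coe _).trans this
  · obtain ⟨y, hy⟩ := Metric.denseRange_iff.1 UniformSpace.Completion.denseRange_coe z ε hε
    obtain ⟨a, b, hb, rfl⟩ := IsFractionRing.div_surjective (A := W) y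
    refine ⟨a, b, nonZeroDivisors.ne_zero hb, ?_⟩
    rw [RingHom.comp_apply, RingHom.comp_apply, ← map_div₀, ← dist_eq_norm]
    exact hy

end Pool.Agent.P.MP_7cb106_nt.BC

/-! Step NJ. -/

set_option autoImplicit false

namespace Pool.Agent.P.MP_7cb106_nt.BC

open Polynomial

theorem p_NJ :
    S_NJ := by
  intro p _ L _ _ g s s0 _ hp hg
  have hu : ∀ u : ℤ_[p]ˣ, ‖g u‖ = 1 := fun u => by
    have e : ‖g u‖ * ‖g ↑u⁻¹‖ = 1 := by rw [← norm_mul, ← map_mul, u.mul_inv, map_one, norm_one]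
    have := hg ↑u⁻¹
    have := norm_nonneg (g u)
    exact le_antisymm (hg u) (by nlinarith)
  have h : ∀ a, a ≠ 0 → ‖g a‖ = s ^ a.valuation := fun a ha => by
    conv_lhs => rw [PadicInt.unitCoeff_spec ha]
    rw [map_mul, map_pow, norm_mul, norm_pow, hu, map_natCast, hp, one_mul]
  refine ⟨(injective_iff_map_eq_zero g).2 fun a e => by_contra fun ha => ?_, h⟩
  have := h a ha
  rw [e, norm_zero] at this
  exact (pow_pos s0 _).ne this

end Pool.Agent.P.MP_7cb106_nt.BC

/-! Step ALG1. -/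

set_option autoImplicit false

namespace Pool.Agent.P.MP_7cb106_nt.BC

open Polynomial

theorem alg1_prim {p : ℕ} [Fact p.Prime] {L : Type} [Field L] (g : ℤ_[p] →+* L) (hp : (p : L) ≠ 0)
    {z : L} (h : Alg g z) : ∃ Q : ℤ_[p][X], Q.map PadicInt.toZMod ≠ 0 ∧ Q.eval₂ g z = 0 := by
  obtain ⟨Q, h0, h1⟩ := h
  obtain ⟨n, hn⟩ := FiniteMultiplicity.of_prime_left (PadicInt.prime_p (p := p))
    (leadingCoeff_ne_zero.2 h0)
  rw [leadingCoeff] at hn
  generalize Q.natDegree = m, n + 1 = k at hn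
  clear h0
  induction k generalizing Q with
  | zero => simp at hn
  | succ k ih =>
    by_cases e : Q.map PadicInt.toZMod = 0
    · obtain ⟨Q, rfl⟩ : C (p : ℤ_[p]) ∣ Q := (C_dvd_iff_dvd_coeff _ _).2 fun i => by
        have h2 : Q.coeff i ∈ RingHom.ker (PadicInt.toZMod (p := p)) := by
          rw [RingHom.mem_ker, ← coeff_map, e, coeff_zero]
        rwa [PadicInt.ker_toZMod, PadicInt.maximalIdeal_eq_span_p, Ideal.mem_span_singleton] at h2
      rw [eval₂_mul, eval₂_C, map_natCast] at h1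
      refine ih Q ((mul_eq_zero.1 h1).resolve_left hp) fun a => hn ?_
      rw [coeff_C_mul, pow_succ']
      exact mul_dvd_mul_left _ a
    · exact ⟨Q, e, h1⟩

theorem alg1_lip {A L : Type} [CommRing A] [NormedField L] [IsUltrametricDist L] (g : A →+* L)
    (hg : ∀ a, ‖g a‖ ≤ 1) {a b : L} (ha : ‖a‖ ≤ 1) (hb : ‖b‖ ≤ 1) (Q : A[X]) :
    ‖Q.eval₂ g a - Q.eval₂ g b‖ ≤ ‖a - b‖ := by
  have h : ∀ n : ℕ, ‖a ^ n - b ^ n‖ ≤ ‖a - b‖ := fun n => by
    induction n with
    | zero => simp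
    | succ n ih =>
      rw [show a ^ (n + 1) - b ^ (n + 1) = a * (a ^ n - b ^ n) + b ^ n * (a - b) by ring]
      refine (IsUltrametricDist.norm_add_le_max _ _).trans (max_le ?_ ?_)
      · rw [norm_mul]; exact (mul_le_of_le_one_left (norm_nonneg _) ha).trans ih
      · rw [norm_mul, norm_pow]
        exact mul_le_of_le_one_left (norm_nonneg _) (pow_le_one₀ (norm_nonneg _) hb)
  induction Q using Polynomial.induction_on' with
  | add P Q h1 h2 =>
    rw [eval₂_add, eval₂_add, add_sub_add_comm]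
    exact (IsUltrametricDist.norm_add_le_max _ _).trans (max_le h1 h2)
  | monomial n c =>
    rw [eval₂_monomial, eval₂_monomial, ← mul_sub, norm_mul]
    exact (mul_le_of_le_one_left (norm_nonneg _) (hg c)).trans (h n)

theorem p_ALG1 (hNJ : S_NJ) :
    S_ALG1 := by
  intro p _ V W L _ _ _ _ _ nv τ T0 sh s ι j hV hS s0 s1 hN hL z u hz hu
  have hτ : ∀ c, ‖ι (τ c)‖ = nv c := fun c => by simpa using hN.mono 0 c
  have hp : ∀ x, ‖ι (p * x)‖ < 1 := fun x =>
    (hN.pmul x).trans_lt ((mul_le_of_le_one_right s0.le (hN.le_one x)).trans_lt s1)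
  have add : ∀ a b : L, ‖a‖ < 1 → ‖b‖ < 1 → ‖a + b‖ < 1 := fun a b h1 h2 =>
    (IsUltrametricDist.norm_add_le_max _ _).trans_lt (max_lt h1 h2)
  have p0 : (p : L) ≠ 0 := fun e => by
    have := hN.pmul 1
    simp only [mul_one, map_natCast, e, norm_zero, map_one, norm_one] at this
    exact s0.ne this
  obtain ⟨Q, h0, h1⟩ := alg1_prim _ p0 hz
  have z1 : ‖z‖ ≤ 1 := by
    rw [← sub_add_cancel z (ι (τ u))]
    exact (IsUltrametricDist.norm_add_le_max _ _).trans (max_le hu.le (hN.le_one _))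
  have h2 := (alg1_lip (ι.comp j) (fun a => hN.le_one _) z1 (hN.le_one (τ u)) Q).trans_lt hu
  rw [h1, zero_sub, norm_neg, ← hom_eval₂] at h2
  have h3 : T0.comp j = (ZMod.castHom (dvd_refl p) V).comp PadicInt.toZMod := by
    ext a
    have h4 := PadicInt.toZMod_spec a
    rw [PadicInt.maximalIdeal_eq_span_p, Ideal.mem_span_singleton, ← ZMod.natCast_val] at h4
    obtain ⟨b, hb⟩ := h4
    rw [RingHom.comp_apply _ PadicInt.toZMod, ZMod.castHom_apply, ← ZMod.natCast_val]
    conv_lhs => rw [sub_eq_iff_eq_add.1 hb, map_add, map_mul, map_natCast, map_natCast, hS.char,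
      zero_mul, zero_add]
  obtain ⟨r, ⟨n, hn, hr⟩, h5⟩ := hL _ h0 u (by
    rw [eval₂_map, ← h3, ← hS.res u, ← hom_eval₂, ← hτ, eq_sub_of_add_eq (hS.dec _).symm, map_sub,
      sub_eq_add_neg]
    exact add _ _ h2 (by rw [norm_neg]; exact hp _))
  refine ⟨r, ?_, ?_⟩
  · letI := (ι.comp j).toAlgebra
    have a1 : IsAlgebraic ℤ_[p] z := hz
    have a2 : IsAlgebraic ℤ_[p] (ι (τ r)) := ⟨X ^ (n + 1) - X, fun e => by
      have := congrArg natDegree (sub_eq_zero.1 e)
      rw [natDegree_X_pow, natDegree_X] at this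
      omega, by rw [map_sub, map_pow, aeval_X, ← map_pow, ← map_pow, hr, sub_self]⟩
    exact a1.sub a2
  · have h6 := hS.dec (τ u - τ r)
    rw [map_sub T0, hS.res, hS.res] at h6
    rw [← sub_add_sub_cancel z (ι (τ u)), ← map_sub, h6, map_add]
    exact add _ _ hu (add _ _ ((hτ _).trans_lt h5) (hp _))

end Pool.Agent.P.MP_7cb106_nt.BC

/-! Step BET1. -/

set_option autoImplicit false

namespace Pool.Agent.P.MP_7cb106_nt.BC

open Polynomial

theorem bet1_pow {W : Type} [CommRing W] (u : W) (n : ℕ) :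
    ∃ w, (1 + u) ^ n = 1 + n * u + u * u * w := by
  induction n with
  | zero => exact ⟨0, by simp⟩
  | succ n ih =>
    obtain ⟨w, h⟩ := ih
    exact ⟨n + w + u * w, by rw [pow_succ, h]; push_cast; ring⟩

theorem p_BET1 :
    S_BET1 := by
  intro p _ O V W _ _ _ nv τ T0 sh s N μ hS h0 h1 hN hμ
  obtain ⟨q, hq⟩ : ∃ q, q = max (1 / 2 : ℝ) s := ⟨_, rfl⟩
  have q1 : q < 1 := hq ▸ max_lt (by norm_num) h1
  have q2 : s ≤ q := hq ▸ le_max_right _ _
  have st : ∀ n x t, s ≤ t → N (UU p τ μ n x) ≤ t →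
      N (UU p τ μ (n + 1) x) ≤ t * N (UU p τ μ n x) := fun n x t h2 h3 => by
    obtain ⟨w, hw⟩ := bet1_pow (UU p τ μ n x) p
    have e : UU p τ μ (n + 1) x =
        p * UU p τ μ n x + UU p τ μ n x * UU p τ μ n x * w := by
      rw [← add_right_inj 1, ← add_assoc, ← hw]
      simp only [UU, add_sub_cancel, pow_succ, pow_mul]
    have a := hN.nonneg (UU p τ μ n x)
    rw [e]
    refine (hN.add _ _).trans (max_le ?_ ((hN.mul_le _ _).trans ?_))
    · rw [hN.pmul]
      exact mul_le_mul_of_nonneg_right h2 a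
    · exact (mul_le_of_le_one_right (hN.nonneg _) (hN.le_one _)).trans
        ((hN.mul_le _ _).trans (mul_le_mul_of_nonneg_right h3 a))
  have h2 : ∀ n x, N (UU p τ μ n x) ≤ q ^ (n + 1) := fun n x => by
    induction n with
    | zero =>
      have e : T0 (UU p τ μ 0 x) = μ x - 1 := by simp [UU, hS.res]
      rw [hS.dec (UU p τ μ 0 x), e, zero_add, pow_one, hq]
      refine (hN.add _ _).trans (max_le_max ?_ ?_)
      · simpa using (hN.mono 0 (μ x - 1)).trans_le (by simpa using hμ.near x)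
      · rw [hN.pmul]
        exact mul_le_of_le_one_right h0.le (hN.le_one _)
    | succ n ih =>
      have q0 := h0.le.trans q2
      refine (st n x q q2 (ih.trans (pow_le_of_le_one q0 q1.le n.succ_ne_zero))).trans ?_
      rw [pow_succ' q (n + 1)]
      exact mul_le_mul_of_nonneg_left ih q0
  obtain ⟨k, hk⟩ := exists_pow_lt_of_lt_one h0 q1
  have s0 : 0 < s ^ k := pow_pos h0 k
  refine ⟨(s ^ k)⁻¹, one_le_inv₀ s0 |>.2 (pow_le_one₀ h0.le h1.le), fun n x => ?_⟩
  induction n with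
  | zero => simpa using (hN.le_one _).trans ((one_le_inv₀ s0).2 (pow_le_one₀ h0.le h1.le))
  | succ n ih =>
    rcases le_or_gt (n + 1) k with h | h
    · refine (hN.le_one _).trans ?_
      rw [inv_mul_eq_div, le_div_iff₀ s0, one_mul]
      exact pow_le_pow_of_le_one h0.le h1.le h
    · refine (st n x s le_rfl ((h2 n x).trans (le_trans (pow_le_pow_of_le_one (h0.le.trans q2)
        q1.le h.le) hk.le))).trans ?_
      rw [pow_succ', mul_left_comm]
      exact mul_le_mul_of_nonneg_left ih h0.le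

end Pool.Agent.P.MP_7cb106_nt.BC

/-! Step RPF. -/

set_option autoImplicit false

namespace Pool.Agent.P.MP_7cb106_nt.BC

open Polynomial

/-- the functions with a power in a given algebra of functions -/
def rpf_R (p : ℕ) [Fact p.Prime] {O V : Type} [Nonempty O] [CommRing V] [CharP V p]
    (A : Subalgebra V (O → V)) : Subring (O → V) where
  carrier := {a | ∃ i : ℕ, a ^ p ^ i ∈ A}
  one_mem' := ⟨0, by simpa using A.one_mem⟩
  zero_mem' := ⟨0, by simpa using A.zero_mem⟩
  mul_mem' := fun {a b} ⟨i, hi⟩ ⟨j, hj⟩ => ⟨i + j, by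
    rw [mul_pow]
    refine A.mul_mem ?_ ?_
    · rw [pow_add, pow_mul]; exact A.pow_mem hi _
    · rw [add_comm, pow_add, pow_mul]; exact A.pow_mem hj _⟩
  add_mem' := fun {a b} ⟨i, hi⟩ ⟨j, hj⟩ => ⟨i + j, by
    rw [add_pow_char_pow]
    refine A.add_mem ?_ ?_
    · rw [pow_add, pow_mul]; exact A.pow_mem hi _
    · rw [add_comm, pow_add, pow_mul]; exact A.pow_mem hj _⟩
  neg_mem' := fun {a} ⟨i, hi⟩ => ⟨i, by
    rw [neg_pow]
    exact A.mul_mem (A.pow_mem (A.neg_mem A.one_mem) _) hi⟩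

theorem rpf_perf (p : ℕ) [Fact p.Prime] {O V : Type} [Nonempty O] [CommRing V] [CharP V p]
    [PerfectRing V p] (A : Subalgebra V (O → V)) : PerfectRing (rpf_R p A) p := by
  refine ⟨fun a b h => Subtype.ext (funext fun x => ?_), fun ⟨a, i, hi⟩ => ?_⟩
  · exact (frobeniusEquiv V p).injective (congrFun (congrArg Subtype.val h) x)
  · have e : (fun x => (frobeniusEquiv V p).symm (a x)) ^ p = a :=
      funext fun x => (frobeniusEquiv V p).apply_symm_apply (a x)
    exact ⟨⟨fun x => (frobeniusEquiv V p).symm (a x), i + 1, by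
      rw [pow_succ', pow_mul, e]; exact hi⟩, Subtype.ext e⟩

theorem p_RPF :
    S_RPF := by
  intro p _ O V _ _ _ _ μ h0 ha
  let M : Submonoid (O → V) :=
    { carrier := Set.range fun y x => μ (y * x)
      one_mem' := ⟨0, funext fun x => by simp [h0]⟩
      mul_mem' := by
        rintro _ _ ⟨y, rfl⟩ ⟨z, rfl⟩
        exact ⟨y + z, funext fun x => by simp [add_mul, ha]⟩ }
  let A := Algebra.adjoin V (M : Set (O → V))
  refine ⟨rpf_R p A, inferInstance, inferInstance, rpf_perf p A,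
    (algebraMap V (O → V)).codRestrict _ fun c => ⟨0, by simpa using A.algebraMap_mem c⟩,
    fun y => ⟨fun x => μ (y * x), 0, by
      rw [pow_zero, pow_one]; exact Algebra.subset_adjoin ⟨y, rfl⟩⟩,
    fun x => (Pi.evalRingHom (fun _ => V) x).comp (rpf_R p A).subtype,
    fun _ _ => rfl, fun _ _ => rfl, fun ⟨a, i, hi⟩ => ?_⟩
  have h1 : a ^ p ^ i ∈ Submodule.span V (M : Set (O → V)) := by
    have := Algebra.adjoin_eq_span V (M : Set (O → V))
    rw [Submonoid.closure_eq] at this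
    rw [← this]
    exact hi
  obtain ⟨n, c, g, hg⟩ := Submodule.mem_span_set'.1 h1
  choose y hy using fun k => (g k).2
  refine ⟨i, n, c, y, fun x => ?_⟩
  have := congrFun hg x
  rw [Finset.sum_apply] at this
  refine this.symm.trans (Finset.sum_congr rfl fun k _ => ?_)
  rw [← hy k]
  rfl

end Pool.Agent.P.MP_7cb106_nt.BC

/-! Step RHO. -/

set_option autoImplicit false

namespace Pool.Agent.P.MP_7cb106_nt.BC

open Polynomial

theorem rho_sub {i j m : ℕ} (hm : 0 < m) (α β : ℝ) :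
    Set.Subsingleton {s : ℝ | 0 < s ∧ i ≠ j ∧ 0 < α ∧ (s ^ m) ^ i * α = (s ^ m) ^ j * β} := by
  rintro s ⟨hs, hij, hα, h1⟩ t ⟨ht, -, -, h2⟩
  refine (pow_left_inj₀ hs.le ht.le hm.ne').1 ?_
  have hs' := pow_pos hs m
  have ht' := pow_pos ht m
  generalize s ^ m = u at *
  generalize t ^ m = v at *
  rcases lt_or_gt_of_ne hij with h | h
  · obtain ⟨d, rfl⟩ := Nat.exists_eq_add_of_lt h
    refine (pow_left_inj₀ hs'.le ht'.le (Nat.succ_ne_zero d)).1 ?_
    rw [add_assoc, pow_add, mul_assoc] at h1 h2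
    have e1 := mul_left_cancel₀ (pow_pos hs' i).ne' h1
    have e2 := mul_left_cancel₀ (pow_pos ht' i).ne' h2
    have hβ : β ≠ 0 := fun h0 => by rw [h0, mul_zero] at e1; exact hα.ne' e1
    exact mul_right_cancel₀ hβ (e1.symm.trans e2)
  · obtain ⟨d, rfl⟩ := Nat.exists_eq_add_of_lt h
    refine (pow_left_inj₀ hs'.le ht'.le (Nat.succ_ne_zero d)).1 ?_
    rw [add_assoc, pow_add, mul_assoc] at h1 h2
    have e1 := mul_left_cancel₀ (pow_pos hs' j).ne' h1
    have e2 := mul_left_cancel₀ (pow_pos ht' j).ne' h2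
    exact mul_right_cancel₀ hα.ne' (e1.trans e2.symm)

theorem p_RHO :
    S_RHO := by
  intro V _ nv m hm hc hp
  have hB : (⋃ i : ℕ, ⋃ j : ℕ, ⋃ α ∈ Set.range nv, ⋃ β ∈ Set.range nv,
      {s : ℝ | 0 < s ∧ i ≠ j ∧ 0 < α ∧ (s ^ m) ^ i * α = (s ^ m) ^ j * β}).Countable :=
    Set.countable_iUnion fun i => Set.countable_iUnion fun j => hc.biUnion fun α _ =>
      hc.biUnion fun β _ => (rho_sub hm α β).finite.countable
  obtain ⟨s, hs1, hs2⟩ := (hB.dense_compl ℝ).exists_mem_open (isOpen_Ioo (a := (0 : ℝ)) (b := 1))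
    (Set.nonempty_Ioo.2 one_pos)
  refine ⟨s, hs2.1, hs2.2, fun i j a b ha h => ?_⟩
  by_contra hij
  refine hs1 ?_
  simp only [Set.mem_iUnion]
  exact ⟨i, j, nv a, ⟨a, rfl⟩, nv b, ⟨b, rfl⟩, hs2.1, hij, hp a ha, h⟩

end Pool.Agent.P.MP_7cb106_nt.BC

/-! Step DPF. -/

set_option autoImplicit false

namespace Pool.Agent.P.MP_7cb106_nt.BC

open Polynomial

/-- the elements of norm at most one in a subfield -/
def dpf_V {C : Type} [NormedField C] [IsUltrametricDist C] (S : Subfield C) : Subring C where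
  carrier := {a | a ∈ S ∧ ‖a‖ ≤ 1}
  mul_mem' := fun {a b} ha hb => ⟨S.mul_mem ha.1 hb.1, by
    rw [norm_mul]; exact mul_le_one₀ ha.2 (norm_nonneg _) hb.2⟩
  one_mem' := ⟨S.one_mem, by simp⟩
  add_mem' := fun {a b} ha hb => ⟨S.add_mem ha.1 hb.1,
    (IsUltrametricDist.norm_add_le_max a b).trans (max_le ha.2 hb.2)⟩
  zero_mem' := ⟨S.zero_mem, by simp⟩
  neg_mem' := fun {a} ha => ⟨S.neg_mem ha.1, by rw [norm_neg]; exact ha.2⟩

theorem dpf_mem {C : Type} [NormedField C] [IsUltrametricDist C] (S : Subfield C) (a : C) :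
    a ∈ dpf_V S ↔ a ∈ S ∧ ‖a‖ ≤ 1 := Iff.rfl

theorem dpf_VA {C : Type} [NormedField C] [IsUltrametricDist C] (S : Subfield C) :
    VA (fun a : dpf_V S => ‖(a : C)‖) where
  nonneg := fun a => norm_nonneg _
  eq_zero := fun a => by simp
  one := by simp
  mul := fun a b => by simp
  add := fun a b => by simpa using IsUltrametricDist.norm_add_le_max (a : C) (b : C)
  neg := fun a => by simp
  le_one := fun a => ((dpf_mem S _).1 a.2).2
  dvd := fun a b h => by
    by_cases hb : (b : C) = 0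
    · refine ⟨0, Subtype.ext ?_⟩
      have : ‖(a : C)‖ ≤ 0 := by simpa [hb] using h
      simpa using this
    · refine ⟨⟨(a : C) / b, (dpf_mem S _).2 ⟨S.div_mem ((dpf_mem S _).1 a.2).1
        ((dpf_mem S _).1 b.2).1, ?_⟩⟩, Subtype.ext ?_⟩
      · rw [norm_div]
        exact div_le_one_of_le₀ h (norm_nonneg _)
      · show (a : C) = b * (a / b)
        field_simp

theorem dpf_cast (p : ℕ) {C : Type} [CommRing C] [CharP C p] (V : Subring C) (z : ZMod p) :
    ((ZMod.castHom (dvd_refl p) V z : V) : C) = ZMod.castHom (dvd_refl p) C z := by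
  have h : V.subtype.comp (ZMod.castHom (dvd_refl p) V) = ZMod.castHom (dvd_refl p) C :=
    RingHom.ext_zmod _ _
  exact congrArg (fun f : ZMod p →+* C => f z) h

theorem dpf_eval (p : ℕ) {C : Type} [CommRing C] [CharP C p] (V : Subring C) (Q : (ZMod p)[X])
    (u : V) : ((Q.eval₂ (ZMod.castHom (dvd_refl p) V) u : V) : C) =
      Q.eval₂ (ZMod.castHom (dvd_refl p) C) (u : C) := by
  have h : V.subtype.comp (ZMod.castHom (dvd_refl p) V) = ZMod.castHom (dvd_refl p) C :=
    RingHom.ext_zmod _ _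
  have h2 := Polynomial.hom_eval₂ Q (ZMod.castHom (dvd_refl p) V) V.subtype u
  rw [h] at h2
  exact h2

theorem p_DPF (hGENF : S_GENF) (hSPL : S_SPL) (hRHO : S_RHO) (hDV : S_DV) :
    S_DPF := by
  intro p hp O _ _ _ _ _ C _ _ _ _ μ h0 hadd hnear hne l M
  obtain ⟨S, hS1, hS2, hS3, hS4⟩ := hGENF p O C μ h0 hadd hnear
  have hp0 : p ≠ 0 := hp.out.ne_zero
  have hVA := dpf_VA S
  have : PerfectRing (dpf_V S) p := by
    refine PerfectRing.ofSurjective _ p fun a => ?_
    obtain ⟨b, hb⟩ := IsAlgClosed.exists_pow_nat_eq (a : C) hp.out.pos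
    have ha := (dpf_mem S _).1 a.2
    refine ⟨⟨b, (dpf_mem S _).2 ⟨hS2 a ha.1 b hb, ?_⟩⟩, Subtype.ext ?_⟩
    · have h1 : ‖b‖ ^ p ≤ 1 := by rw [← norm_pow, hb]; exact ha.2
      exact (pow_le_one_iff_of_nonneg (norm_nonneg _) hp0).1 h1
    · simpa [frobenius_def] using hb
  have hspl : Spl p (fun a : dpf_V S => ‖(a : C)‖) := by
    intro Q hQ u hu
    have hu' : ‖Q.eval₂ (ZMod.castHom (dvd_refl p) C) (u : C)‖ < 1 := by
      rw [← dpf_eval]; exact hu
    obtain ⟨r, ⟨n, hn, hr⟩, hur⟩ := hSPL p C Q hQ u hu'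
    have hr1 : ‖r‖ ≤ 1 := by
      by_contra hc
      push Not at hc
      have h1 : ‖r‖ ^ (n + 1) = ‖r‖ := by rw [← norm_pow, hr]
      have h2 : 1 < ‖r‖ ^ n := one_lt_pow₀ hc hn.ne'
      rw [pow_succ] at h1
      nlinarith
    refine ⟨⟨r, (dpf_mem S _).2 ⟨hS3 r ⟨n, hn, hr⟩, hr1⟩⟩, ⟨n, hn, Subtype.ext ?_⟩, ?_⟩
    · simpa using hr
    · simpa using hur
  obtain ⟨s, hs0, hs1, hgen⟩ := hRHO (dpf_V S) (fun a : dpf_V S => ‖(a : C)‖) (p ^ 2)
    (pow_pos hp.out.pos 2)
    (hS4.mono (by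
      rintro _ ⟨a, rfl⟩
      exact ⟨a, ((dpf_mem S _).1 a.2).1, rfl⟩))
    (fun a ha => norm_pos_iff.2 fun h => ha (Subtype.ext h))
  have hμ1 : ∀ x, ‖μ x‖ ≤ 1 := fun x => by
    have h := IsUltrametricDist.norm_add_le_max (μ x - 1) 1
    rw [sub_add_cancel, norm_one] at h
    exact h.trans (max_le ((hnear x).trans (by norm_num)) le_rfl)
  let μ' : O → dpf_V S := fun x => ⟨μ x, (dpf_mem S _).2 ⟨hS1 x, hμ1 x⟩⟩
  have hch : Ch (fun a : dpf_V S => ‖(a : C)‖) μ' :=
    ⟨Subtype.ext h0, fun x y => Subtype.ext (hadd x y), fun x => hnear x⟩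
  obtain ⟨T, D, c, α, hT, hD, hc, hap, i, n', c', y', hα⟩ := hDV p O (dpf_V S)
    (fun a : dpf_V S => ‖(a : C)‖) μ' s hVA hspl hs0 hs1 hgen hch
    (by
      obtain ⟨x, hx⟩ := hne
      exact ⟨x, fun h => hx (congrArg Subtype.val h)⟩) l M
  have hD0 : (D : C) ≠ 0 := fun h => hD (Subtype.ext h)
  have hDp : 0 < ‖(D : C)‖ := norm_pos_iff.2 hD0
  have hq : ‖(c : C) / D‖ ≤ T := by
    rw [norm_div, div_le_iff₀ hDp]
    exact hc
  refine ⟨T ^ p ^ i, one_lt_pow₀ hT (pow_ne_zero _ hp0), n',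
    fun k => ((c : C) / D) ^ p ^ i * (c' k : C), y', fun k => ?_, fun x => ?_⟩
  · rw [norm_mul, norm_pow]
    have h1 : ‖(c : C) / D‖ ^ p ^ i ≤ T ^ p ^ i := pow_le_pow_left₀ (norm_nonneg _) hq _
    have h2 : ‖(c' k : C)‖ ≤ 1 := hVA.le_one _
    calc _ ≤ ‖(c : C) / D‖ ^ p ^ i * 1 := by gcongr
      _ ≤ _ := by rw [mul_one]; exact h1
  · set a : C := ZMod.castHom (dvd_refl p) C (PadicInt.toZMod (l x)) with ha
    have ha1 : a ^ p ^ i = a := by
      rw [ha, ← map_pow, ZMod.pow_card_pow]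
    have hα' : (α x : C) ^ p ^ i = ∑ k, (c' k : C) * μ (y' k * x) := by
      have h := congrArg Subtype.val (hα x)
      simpa using h
    have h3 : a - ∑ k, ((c : C) / D) ^ p ^ i * (c' k : C) * μ (y' k * x) =
        (a - (c : C) / D * α x) ^ p ^ i := by
      rw [sub_pow_char_pow, ha1, mul_pow, hα', Finset.mul_sum]
      simp only [mul_assoc]
    have h4 : ‖a - (c : C) / D * α x‖ ≤ (T ^ M)⁻¹ := by
      have h5 := hap x
      have h6 : (((D * ZMod.castHom (dvd_refl p) (dpf_V S) (PadicInt.toZMod (l x)) - c * α x :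
          dpf_V S)) : C) = D * (a - (c : C) / D * α x) := by
        have e : (((D * ZMod.castHom (dvd_refl p) (dpf_V S) (PadicInt.toZMod (l x)) - c * α x :
          dpf_V S)) : C) = D * ((ZMod.castHom (dvd_refl p) (dpf_V S) (PadicInt.toZMod (l x)) :
            dpf_V S) : C) - c * α x := rfl
        rw [e, dpf_cast, ← ha]
        field_simp
      simp only [h6, norm_mul] at h5
      exact le_of_mul_le_mul_left h5 hDp
    rw [h3, norm_pow]
    calc _ ≤ ((T ^ M)⁻¹) ^ p ^ i := pow_le_pow_left₀ (norm_nonneg _) h4 _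
      _ = _ := by rw [inv_pow, ← pow_mul, ← pow_mul, mul_comm]

end Pool.Agent.P.MP_7cb106_nt.BC
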