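import Mathlib

/-! Strict `p`-rings with Gauss norms: definitions. -/

set_option autoImplicit false

namespace Pool.Agent.P.MP_7cb106_nt.BC

/-- approximation of linear forms by characters -/
def S_DP : Prop := ∀ (p : ℕ) [Fact p.Prime] (O : Type) [CommRing O] [IsDomain O] [Algebra ℤ_[p] O]
  [Module.Finite ℤ_[p] O] [Module.Free ℤ_[p] O] (C : Type) [NormedField C] [IsUltrametricDist C]
  [IsAlgClosed C] [CharP C p] (μ : O → C), μ 0 = 1 →
  (∀ x y, μ (x + y) = μ x * μ y) → (∀ x, ‖μ x - 1‖ ≤ 1 / 2) → (∃ x, μ x ≠ 1) →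
  ∀ (l : O →ₗ[ℤ_[p]] ℤ_[p]) (M : ℕ), ∃ T : ℝ, 1 < T ∧ ∃ (n : ℕ) (th : Fin n → C) (s : Fin n → O),
    (∀ k, ‖th k‖ ≤ T) ∧ ∀ x,
      ‖ZMod.castHom (dvd_refl p) C (PadicInt.toZMod (l x)) - ∑ k, th k * μ (s k * x)‖ ≤ (T ^ M)⁻¹

/-- a valuation ring with a real absolute value -/
structure VA {V : Type} [CommRing V] (nv : V → ℝ) : Prop where
  nonneg : ∀ a, 0 ≤ nv a
  eq_zero : ∀ a, nv a = 0 ↔ a = 0
  one : nv 1 = 1
  mul : ∀ a b, nv (a * b) = nv a * nv b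
  add : ∀ a b, nv (a + b) ≤ max (nv a) (nv b)
  neg : ∀ a, nv (-a) = nv a
  le_one : ∀ a, nv a ≤ 1
  dvd : ∀ a b, nv a ≤ nv b → ∃ c, a = b * c

/-- strict `p`-ring `W` with residue ring `R` -/
structure SP (p : ℕ) {R W : Type} [CommRing R] [CommRing W] (τ : R →* W) (T0 : W →+* R)
    (sh : W → W) : Prop where
  zero : τ 0 = 0
  dec : ∀ x, x = τ (T0 x) + p * sh x
  res : ∀ c, T0 (τ c) = c
  char : (p : R) = 0
  reg : ∀ x : W, p * x = 0 → x = 0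
  sep : ∀ x : W, (∀ n : ℕ, ∃ y, x = p ^ n * y) → x = 0
  ex : ∀ r : ℕ → R, ∃ x, ∀ i, T0 (sh^[i] x) = r i

/-- Gauss norm of radius `s` -/
noncomputable def NN {V W : Type} [CommRing V] [CommRing W] (nv : V → ℝ) (T0 : W →+* V)
    (sh : W → W) (s : ℝ) (x : W) : ℝ :=
  ⨆ i : ℕ, s ^ i * nv (T0 (sh^[i] x))

/-- sums of small monomials -/
def SS (p : ℕ) {V W : Type} [CommRing W] (τ : V → W) (nv : V → ℝ) (s t : ℝ) : AddSubgroup W :=
  AddSubgroup.closure {z | ∃ (i : ℕ) (c : V) (w : W), s ^ i * nv c ≤ t ∧ z = p ^ i * τ c * w}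

/-- the properties of a Gauss norm -/
structure NP (p : ℕ) {V W : Type} [CommRing W] (τ : V → W) (nv : V → ℝ) (s : ℝ) (N : W → ℝ) :
    Prop where
  nonneg : ∀ x, 0 ≤ N x
  le_one : ∀ x, N x ≤ 1
  eq_zero : ∀ x, N x = 0 ↔ x = 0
  add : ∀ x y, N (x + y) ≤ max (N x) (N y)
  neg : ∀ x, N (-x) = N x
  mul_le : ∀ x y, N (x * y) ≤ N x * N y
  mono : ∀ (i : ℕ) c, N (p ^ i * τ c) = s ^ i * nv c
  pmul : ∀ x, N (p * x) = s * N x
  mem : ∀ t x, 0 < t → (N x ≤ t ↔ x ∈ SS p τ nv s t)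

/-- generic radius -/
def Gen {V : Type} [Zero V] (nv : V → ℝ) (ρ : ℝ) : Prop :=
  ∀ (i j : ℕ) (a b : V), a ≠ 0 → ρ ^ i * nv a = ρ ^ j * nv b → i = j

/-- dominant terms -/
def Dom (p : ℕ) {V W : Type} [CommRing W] (τ : V → W) (N : W → ℝ) : Prop :=
  ∀ x, x ≠ 0 → ∃ (i : ℕ) (c : V), N (x - p ^ i * τ c) < N x

/-- elements with a monomial denominator are dense -/
def Den (p : ℕ) {V W L : Type} [Zero V] [CommRing W] [NormedField L] (τ : V → W) (ι : W →+* L) :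
    Prop :=
  ∀ (z : L) (ε : ℝ), 0 < ε → ∃ (w : W) (a : ℕ) (d : V), d ≠ 0 ∧ ‖z - ι w / ι (p ^ a * τ d)‖ ≤ ε

/-- almost roots of polynomials over the prime field are near roots of unity -/
def Spl (p : ℕ) {V : Type} [CommRing V] [CharP V p] (nv : V → ℝ) : Prop :=
  ∀ Q : Polynomial (ZMod p), Q ≠ 0 → ∀ u : V,
    nv (Q.eval₂ (ZMod.castHom (dvd_refl p) V) u) < 1 →
    ∃ r : V, (∃ n, 0 < n ∧ r ^ (n + 1) = r) ∧ nv (u - r) < 1

/-- algebraic over the image of `g` -/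
def Alg {A L : Type} [CommRing A] [CommRing L] (g : A →+* L) (z : L) : Prop :=
  ∃ Q : Polynomial A, Q ≠ 0 ∧ Q.eval₂ g z = 0

/-- a character with values near `1` -/
structure Ch {O V : Type} [AddCommGroup O] [CommRing V] (nv : V → ℝ) (μ : O → V) : Prop where
  zero : μ 0 = 1
  add : ∀ x y, μ (x + y) = μ x * μ y
  near : ∀ x, nv (μ x - 1) ≤ 1 / 2

/-- the approximate logarithms -/
def UU (p : ℕ) {O V W : Type} [CommRing W] (τ : V → W) (μ : O → V) (n : ℕ) (x : O) : W :=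
  τ (μ x) ^ p ^ n - 1

/-- the logarithm -/
structure Lg (p : ℕ) {O W L : Type} [CommRing W] [NormedField L] (U : ℕ → O → W) (ι : W →+* L)
    (ρ A : ℝ) (β : O → L) : Prop where
  one_le : 1 ≤ A
  small : ∀ n x, ‖ι (U n x)‖ ≤ A * ρ ^ n
  lim : ∀ n x, ‖β x - ι (U n x) / (p : L) ^ n‖ ≤ A * ρ ^ n
  bdd : ∀ x, ‖β x‖ ≤ A

section api
variable {p : ℕ} {R W : Type} [CommRing R] [CommRing W] {τ : R →* W} {T0 : W →+* R} {sh : W → W}

theorem SP.uniq (h : SP p τ T0 sh) {x y : W} {c : R} (e : x = τ c + p * y) :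
    T0 x = c ∧ sh x = y := by
  have h1 : T0 x = c := by rw [e, map_add, map_mul, map_natCast, h.char, h.res, zero_mul, add_zero]
  refine ⟨h1, sub_eq_zero.1 (h.reg _ ?_)⟩
  have h2 := h.dec x
  rw [h1] at h2
  rw [mul_sub, sub_eq_zero]
  exact add_left_cancel (h2.symm.trans e)

theorem SP.sh_add_mul (h : SP p τ T0 sh) (x y : W) :
    T0 (x + p * y) = T0 x ∧ sh (x + p * y) = sh x + y :=
  h.uniq (by rw [mul_add, ← add_assoc, ← h.dec x])

theorem SP.expand (h : SP p τ T0 sh) (x : W) (n : ℕ) :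
    x = ∑ i ∈ Finset.range n, (p : W) ^ i * τ (T0 (sh^[i] x)) + p ^ n * sh^[n] x := by
  induction n with
  | zero => simp
  | succ n ih =>
    rw [Finset.sum_range_succ, Function.iterate_succ_apply', pow_succ, mul_assoc, add_assoc,
      ← mul_add, ← h.dec]
    exact ih

theorem SP.iter_add_mul (h : SP p τ T0 sh) (n : ℕ) (x y : W) :
    sh^[n] (x + p ^ n * y) = sh^[n] x + y := by
  induction n generalizing x with
  | zero => simp
  | succ n ih =>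
    rw [Function.iterate_succ_apply, Function.iterate_succ_apply, pow_succ', mul_assoc,
      (h.sh_add_mul x _).2, ih]

theorem SP.ext (h : SP p τ T0 sh) {x y : W} (e : ∀ i, T0 (sh^[i] x) = T0 (sh^[i] y)) : x = y := by
  refine sub_eq_zero.1 (h.sep _ fun n => ⟨sh^[n] x - sh^[n] y, ?_⟩)
  conv_lhs => rw [h.expand x n, h.expand y n]
  simp only [e]
  ring

theorem SP.nat {R' W' : Type} [CommRing R'] [CommRing W'] {τ' : R' →* W'} {T0' : W' →+* R'}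
    {sh' : W' → W'} (h : SP p τ T0 sh) (h' : SP p τ' T0' sh') (f : R → R') (F : W →+* W')
    (hF : ∀ c, F (τ c) = τ' (f c)) (i : ℕ) (x : W) :
    T0' (sh'^[i] (F x)) = f (T0 (sh^[i] x)) := by
  have h1 : ∀ x, T0' (F x) = f (T0 x) ∧ sh' (F x) = F (sh x) := fun x =>
    h'.uniq (by conv_lhs => rw [h.dec x, map_add, map_mul, map_natCast, hF])
  induction i generalizing x with
  | zero => exact (h1 x).1
  | succ i ih => rw [Function.iterate_succ_apply, Function.iterate_succ_apply, (h1 x).2, ih]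

theorem VA.pow {nv : R → ℝ} (h : VA nv) (a : R) (n : ℕ) : nv (a ^ n) = nv a ^ n := by
  induction n with
  | zero => simpa using h.one
  | succ n ih => rw [pow_succ, h.mul, ih, pow_succ]

theorem NN_bdd {nv : R → ℝ} (h : VA nv) {s : ℝ} (h0 : 0 ≤ s) (h1 : s ≤ 1) (x : W) (i : ℕ) :
    s ^ i * nv (T0 (sh^[i] x)) ≤ 1 :=
  mul_le_one₀ (pow_le_one₀ h0 h1) (h.nonneg _) (h.le_one _)

theorem le_NN {nv : R → ℝ} (h : VA nv) {s : ℝ} (h0 : 0 ≤ s) (h1 : s ≤ 1) (x : W) (i : ℕ) :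
    s ^ i * nv (T0 (sh^[i] x)) ≤ NN nv T0 sh s x :=
  le_ciSup (f := fun i : ℕ => s ^ i * nv (T0 (sh^[i] x)))
    ⟨1, by rintro _ ⟨i, rfl⟩; exact NN_bdd h h0 h1 x i⟩ i

theorem NN_le {nv : R → ℝ} {s t : ℝ} {x : W} (h : ∀ i, s ^ i * nv (T0 (sh^[i] x)) ≤ t) :
    NN nv T0 sh s x ≤ t := ciSup_le h

end api

end Pool.Agent.P.MP_7cb106_nt.BC
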