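import Pool.Agent.P.MP_7cb106_nt.BC.Base

/-! Statements of the steps. -/

set_option autoImplicit false

namespace Pool.Agent.P.MP_7cb106_nt.BC

open Polynomial

/-! ### Witt vectors -/

-- deps:
def S_WIT : Prop := ∀ (p : ℕ) [Fact p.Prime] (R : Type) [CommRing R] [CharP R p] [PerfectRing R p],
  ∃ sh, SP p (WittVector.teichmuller p : R →* WittVector p R) WittVector.constantCoeff sh

-- deps:
def S_WZP : Prop := ∀ (p : ℕ) [Fact p.Prime] (R : Type) [CommRing R] [IsDomain R] [CharP R p],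
  ∃ j : ℤ_[p] →+* WittVector p R, ∀ w, WittVector.map (frobenius R p) w = w → ∃ a, j a = w

/-! ### Gauss norms -/

-- deps:
def S_COEF : Prop := ∀ (p : ℕ) (V R W : Type) [CommRing V] [CommRing R] [CommRing W] (nv : V → ℝ)
  (f : V →+* R) (τ : R →* W) (T0 : W →+* R) (sh : W → W) (s : ℝ), VA nv → SP p τ T0 sh →
  0 < s → s ≤ 1 → ∀ (i : ℕ) (t : ℝ) (z : W), 0 ≤ t → z ∈ SS p (fun c => τ (f c)) nv s t →
  ∃ c w, s ^ i * nv c ≤ t ∧ T0 (sh^[i] z) = f c * w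

-- deps: COEF
def S_NORM : Prop := ∀ (p : ℕ) (V W : Type) [CommRing V] [CommRing W] (nv : V → ℝ)
  (τ : V →* W) (T0 : W →+* V) (sh : W → W) (s : ℝ), VA nv → SP p τ T0 sh → 0 < s → s < 1 →
  NP p τ nv s (NN nv T0 sh s)

-- deps: NORM
def S_DOM : Prop := ∀ (p : ℕ) (V W : Type) [CommRing V] [CommRing W] (nv : V → ℝ)
  (τ : V →* W) (T0 : W →+* V) (sh : W → W) (s : ℝ), VA nv → SP p τ T0 sh → 0 < s → s < 1 →
  Gen nv s → Dom p τ (NN nv T0 sh s)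

-- deps:
def S_NMUL : Prop := ∀ (p : ℕ) (V W : Type) [CommRing V] [CommRing W] (nv : V → ℝ)
  (τ : V →* W) (s : ℝ) (N : W → ℝ), VA nv → NP p τ nv s N → Dom p τ N →
  ∀ x y, N (x * y) = N x * N y

-- deps:
def S_NPHI : Prop := ∀ (p : ℕ) (V W : Type) [CommRing V] [CommRing W] (nv : V → ℝ)
  (τ : V →* W) (T0 : W →+* V) (sh : W → W) (φ : W →+* W) (s : ℝ), VA nv → SP p τ T0 sh →
  (∀ c, φ (τ c) = τ (c ^ p)) → 0 < s → s < 1 → ∀ x,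
  NN nv T0 sh (s ^ p ^ 2) (φ x) ≤ NN nv T0 sh (s ^ p) x ^ p ∧
  NN nv T0 sh (s ^ p) x ^ (p + 1) ≤ NN nv T0 sh (s ^ p ^ 2) x * NN nv T0 sh s x ^ p

-- deps:
def S_LL : Prop := ∀ (W : Type) [CommRing W] (N : W → ℝ), (∀ x, 0 ≤ N x) → (∀ x, N x = 0 ↔ x = 0) →
  N 1 = 1 → (∀ x y, N (x + y) ≤ max (N x) (N y)) → (∀ x, N (-x) = N x) →
  (∀ x y, N (x * y) = N x * N y) →
  ∃ (L : Type) (_ : NormedField L) (_ : IsUltrametricDist L) (_ : CompleteSpace L) (ι : W →+* L),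
    (∀ x, ‖ι x‖ = N x) ∧ ∀ (z : L) (ε : ℝ), 0 < ε → ∃ a b, b ≠ 0 ∧ ‖z - ι a / ι b‖ < ε

-- deps:
def S_DENSE : Prop := ∀ (p : ℕ) (V W L : Type) [CommRing V] [CommRing W] [NormedField L]
  [IsUltrametricDist L] (nv : V → ℝ) (τ : V →* W) (s : ℝ) (ι : W →+* L), VA nv →
  NP p τ nv s (fun x => ‖ι x‖) → Dom p τ (fun x => ‖ι x‖) →
  (∀ (z : L) (ε : ℝ), 0 < ε → ∃ a b, b ≠ 0 ∧ ‖z - ι a / ι b‖ < ε) → Den p τ ι

/-! ### algebraic elements -/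

-- deps:
def S_NJ : Prop := ∀ (p : ℕ) [Fact p.Prime] (L : Type) [NormedField L] [IsUltrametricDist L]
  (g : ℤ_[p] →+* L) (s : ℝ), 0 < s → s < 1 → ‖(p : L)‖ = s → (∀ a, ‖g a‖ ≤ 1) →
  Function.Injective g ∧ ∀ a, a ≠ 0 → ‖g a‖ = s ^ a.valuation

-- deps: NJ
def S_ALG0 : Prop := ∀ (p : ℕ) [Fact p.Prime] (V W L : Type) [CommRing V] [CommRing W]
  [NormedField L] [IsUltrametricDist L] (nv : V → ℝ) (τ : V →* W) (s : ℝ) (ι : W →+* L)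
  (j : ℤ_[p] →+* W), VA nv → 0 < s → s < 1 → NP p τ nv s (fun x => ‖ι x‖) →
  Dom p τ (fun x => ‖ι x‖) → Den p τ ι → Gen nv s → ∀ z : L, Alg (ι.comp j) z →
  (‖z‖ < 1 → ‖z‖ ≤ s) ∧ (‖z‖ = 1 → ∃ u : V, ‖z - ι (τ u)‖ < 1)

-- deps: NJ
def S_ALG1 : Prop := ∀ (p : ℕ) [Fact p.Prime] (V W L : Type) [CommRing V] [CharP V p] [CommRing W]
  [NormedField L] [IsUltrametricDist L] (nv : V → ℝ) (τ : V →* W) (T0 : W →+* V) (sh : W → W)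
  (s : ℝ) (ι : W →+* L) (j : ℤ_[p] →+* W), VA nv → SP p τ T0 sh → 0 < s → s < 1 →
  NP p τ nv s (fun x => ‖ι x‖) → Spl p nv → ∀ (z : L) (u : V), Alg (ι.comp j) z →
  ‖z - ι (τ u)‖ < 1 → ∃ r : V, Alg (ι.comp j) (z - ι (τ r)) ∧ ‖z - ι (τ r)‖ < 1

-- deps: NJ ALG0 ALG1
def S_ALG : Prop := ∀ (p : ℕ) [Fact p.Prime] (V W L : Type) [CommRing V] [CharP V p] [CommRing W]
  [NormedField L] [IsUltrametricDist L] (nv : V → ℝ) (τ : V →* W) (T0 : W →+* V) (sh : W → W)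
  (s : ℝ) (ι : W →+* L) (j : ℤ_[p] →+* W), VA nv → SP p τ T0 sh → 0 < s → s < 1 →
  NP p τ nv s (fun x => ‖ι x‖) → Dom p τ (fun x => ‖ι x‖) → Den p τ ι → Gen nv s → Spl p nv →
  ∀ z : L, Alg (ι.comp j) z → ‖z‖ ≤ 1 → ∃ w, ι w = z

/-! ### the logarithm -/

-- deps:
def S_BET1 : Prop := ∀ (p : ℕ) [Fact p.Prime] (O V W : Type) [AddCommGroup O] [CommRing V]
  [CommRing W] (nv : V → ℝ) (τ : V →* W) (T0 : W →+* V) (sh : W → W) (s : ℝ) (N : W → ℝ)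
  (μ : O → V), SP p τ T0 sh → 0 < s → s < 1 → NP p τ nv s N → Ch nv μ →
  ∃ A : ℝ, 1 ≤ A ∧ ∀ n x, N (UU p τ μ n x) ≤ A * s ^ n

-- deps:
def S_BET2 : Prop := ∀ (p : ℕ) [Fact p.Prime] (O L : Type) [NormedField L] [IsUltrametricDist L]
  [CompleteSpace L] (u : ℕ → O → L) (s A : ℝ), 0 < s → s < 1 → ‖(p : L)‖ = s → 1 ≤ A →
  (∀ n x, u (n + 1) x = (1 + u n x) ^ p - 1) → (∀ n x, ‖u n x‖ ≤ 1) →
  (∀ n x, ‖u n x‖ ≤ A * s ^ n) →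
  ∃ (β : O → L) (B : ℝ), A ≤ B ∧ (∀ n x, ‖β x - u n x / (p : L) ^ n‖ ≤ B * s ^ n) ∧
    (∀ x, ‖β x‖ ≤ B) ∧ ∀ x, (∀ n, u n x ≠ 0) → β x ≠ 0

-- deps: NJ
def S_BET3 : Prop := ∀ (p : ℕ) [Fact p.Prime] (O W L : Type) [AddCommGroup O] [Module ℤ_[p] O]
  [CommRing W] [NormedField L] [IsUltrametricDist L] (U : ℕ → O → W) (ι : W →+* L)
  (g : ℤ_[p] →+* L) (s A : ℝ) (β : O → L), 0 < s → s < 1 → ‖(p : L)‖ = s → (∀ a, ‖g a‖ ≤ 1) →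
  Lg p U ι s A β → (∀ n x y, U n (x + y) = U n x + U n y + U n x * U n y) →
  (∀ x y, β (x + y) = β x + β y) ∧ ∀ (a : ℤ_[p]) x, β (a • x) = g a * β x

-- deps: NORM NPHI BET1
def S_FROB : Prop := ∀ (p : ℕ) [Fact p.Prime] (O V W L : Type) [AddCommGroup O] [CommRing V]
  [CommRing W] [NormedField L] [IsUltrametricDist L] (nv : V → ℝ) (τ : V →* W) (T0 : W →+* V)
  (sh : W → W) (φ : W →+* W) (s A : ℝ) (ι : W →+* L) (μ : O → V) (β : O → L), VA nv →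
  SP p τ T0 sh → (∀ c, φ (τ c) = τ (c ^ p)) → 0 < s → s < 1 →
  (∀ x, ‖ι x‖ = NN nv T0 sh (s ^ p ^ 2) x) → Ch nv μ → Lg p (UU p τ μ) ι (s ^ p ^ 2) A β →
  ∀ (n : ℕ) (w : ℕ → W) (y : ℕ → O), ∑ k ∈ Finset.range n, ι (w k) * β (y k) = 0 →
  ∑ k ∈ Finset.range n, ι (φ (w k)) * β (y k) = 0

-- deps:
def S_NV0 : Prop := ∀ (p : ℕ) [Fact p.Prime] (O : Type) [CommRing O] [IsDomain O] [Algebra ℤ_[p] O]
  [Module.Finite ℤ_[p] O] [Module.Free ℤ_[p] O],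
  ∃ (θ : O) (a : ℕ), ∀ x : O, ∃ Q : ℤ_[p][X], (p : O) ^ a * x = aeval θ Q

-- deps:
def S_NV1 : Prop := ∀ (p : ℕ) [Fact p.Prime] (O W L : Type) [CommRing O] [IsDomain O]
  [Algebra ℤ_[p] O] [Module.Finite ℤ_[p] O] [CommRing W] [NormedField L] [IsUltrametricDist L]
  (ι : W →+* L) (j : ℤ_[p] →+* W) (φ : W →+* W) (β : O → L) (θ : O), Function.Injective ι →
  Function.Injective j → (∀ w, ‖ι w‖ ≤ 1) → (∀ z : L, Alg (ι.comp j) z → ‖z‖ ≤ 1 → ∃ w, ι w = z) →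
  (∀ w, φ w = w → ∃ a, j a = w) → (∀ x y, β (x + y) = β x + β y) →
  (∀ (a : ℤ_[p]) x, β (a • x) = ι (j a) * β x) → (∃ x, β x ≠ 0) →
  (∀ (n : ℕ) (w : ℕ → W) (y : ℕ → O), ∑ k ∈ Finset.range n, ι (w k) * β (y k) = 0 →
    ∑ k ∈ Finset.range n, ι (φ (w k)) * β (y k) = 0) →
  ∀ c : ℕ → L, (∀ x, ∑ k ∈ Finset.range (minpoly ℤ_[p] θ).natDegree, c k * β (θ ^ k * x) = 0) →
    ∀ k, k < (minpoly ℤ_[p] θ).natDegree → c k = 0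

-- deps: NV0
def S_NV2 : Prop := ∀ (p : ℕ) [Fact p.Prime] (O L : Type) [CommRing O] [IsDomain O]
  [Algebra ℤ_[p] O] [Module.Finite ℤ_[p] O] [Module.Free ℤ_[p] O] [Field L] (g : ℤ_[p] →+* L)
  (β : O → L), Function.Injective g → (∀ x y, β (x + y) = β x + β y) →
  (∀ (a : ℤ_[p]) x, β (a • x) = g a * β x) →
  (∀ (θ : O) (c : ℕ → L),
    (∀ x, ∑ k ∈ Finset.range (minpoly ℤ_[p] θ).natDegree, c k * β (θ ^ k * x) = 0) →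
    ∀ k, k < (minpoly ℤ_[p] θ).natDegree → c k = 0) →
  ∀ l : O →ₗ[ℤ_[p]] ℤ_[p], ∃ (n : ℕ) (γ : ℕ → L) (y : ℕ → O),
    ∀ x, g (l x) = ∑ k ∈ Finset.range n, γ k * β (y k * x)

-- deps: NJ
def S_LOG : Prop := ∀ (p : ℕ) [Fact p.Prime] (L : Type) [NormedField L] [IsUltrametricDist L]
  (g : ℤ_[p] →+* L) (s A : ℝ), 0 < s → s < 1 → ‖(p : L)‖ = s → (∀ a, ‖g a‖ ≤ 1) → 1 ≤ A →
  ∀ d : ℕ, ∃ (B : ℝ) (n0 : ℕ), ∀ n, n0 ≤ n → ∃ e : ℕ → ℤ_[p], ∀ u : L, ‖u‖ ≤ A * s ^ n →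
    ‖((1 + u) ^ p ^ (d * n) - 1) / (p : L) ^ (n + d * n) -
      (∑ k ∈ Finset.range d, g (e k) * u ^ (k + 1)) / (p : L) ^ (n + d)‖ ≤ B * s ^ (d * n)

/-! ### extraction -/

-- deps: NJ LOG
def S_APR : Prop := ∀ (p : ℕ) [Fact p.Prime] (O V W L : Type) [CommRing O] [Algebra ℤ_[p] O]
  [CommRing V] [CommRing W] [NormedField L] [IsUltrametricDist L] (nv : V → ℝ) (τ : V →* W)
  (s A : ℝ) (ι : W →+* L) (j : ℤ_[p] →+* W) (μ : O → V) (β : O → L), VA nv → 0 < s → s < 1 →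
  NP p τ nv s (fun x => ‖ι x‖) → Den p τ ι → Lg p (UU p τ μ) ι s A β →
  ∀ (l : O → ℤ_[p]) (m : ℕ) (γ : ℕ → L) (y : ℕ → O),
  (∀ x, ι (j (l x)) = ∑ k ∈ Finset.range m, γ k * β (y k * x)) →
  ∀ d : ℕ, ∃ (B : ℝ) (n0 : ℕ), 1 ≤ B ∧ ∀ n, n0 ≤ n → ∃ (a : ℕ) (D : V) (w : ℕ → W) (e : ℕ → ℤ_[p]),
    D ≠ 0 ∧ (∀ k, ‖ι (w k)‖ ≤ B * s ^ a * nv D) ∧ ∀ x,
    ‖ι (∑ k ∈ Finset.range m, w k * ∑ i ∈ Finset.range d, j (e i) * UU p τ μ n (y k * x) ^ (i + 1) -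
      p ^ (a + n + d) * (τ D * j (l x)))‖ ≤ s ^ (a + n + d) * nv D * (B * s ^ (d * n))

-- deps:
def S_RPF : Prop := ∀ (p : ℕ) [Fact p.Prime] (O V : Type) [CommRing O] [CommRing V] [CharP V p]
  [PerfectRing V p] (μ : O → V), μ 0 = 1 → (∀ x y, μ (x + y) = μ x * μ y) →
  ∃ (R : Type) (_ : CommRing R) (_ : CharP R p) (_ : PerfectRing R p) (f : V →+* R) (χ : O → R)
    (ev : O → R →+* V), (∀ x c, ev x (f c) = c) ∧ (∀ x y, ev x (χ y) = μ (y * x)) ∧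
    ∀ a : R, ∃ (i n : ℕ) (c : Fin n → V) (y : Fin n → O),
      ∀ x, ev x a ^ p ^ i = ∑ k, c k * μ (y k * x)

-- deps: WIT COEF NORM RPF
def S_EXT : Prop := ∀ (p : ℕ) [Fact p.Prime] (O V : Type) [CommRing O] [CommRing V] [CharP V p]
  [PerfectRing V p] (nv : V → ℝ) (sh : WittVector p V → WittVector p V) (s : ℝ)
  (j : ℤ_[p] →+* WittVector p V) (μ : O → V), VA nv →
  SP p (WittVector.teichmuller p) WittVector.constantCoeff sh → 0 < s → s < 1 → Ch nv μ →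
  ∀ (l : O → ℤ_[p]) (m d n J : ℕ) (D : V) (w : ℕ → WittVector p V) (e : ℕ → ℤ_[p]) (y : ℕ → O)
    (t ε : ℝ), 0 < t → (∀ k, NN nv WittVector.constantCoeff sh s (w k) ≤ t) →
  (∀ x, NN nv WittVector.constantCoeff sh s (∑ k ∈ Finset.range m, w k *
      ∑ i ∈ Finset.range d, j (e i) * UU p (WittVector.teichmuller p) μ n (y k * x) ^ (i + 1) -
      p ^ J * (WittVector.teichmuller p D * j (l x))) ≤ s ^ J * ε) →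
  ∃ (c : V) (α : O → V), s ^ J * nv c ≤ t ∧
    (∀ x, nv (D * ZMod.castHom (dvd_refl p) V (PadicInt.toZMod (l x)) - c * α x) ≤ ε) ∧
    ∃ (i n' : ℕ) (c' : Fin n' → V) (y' : Fin n' → O), ∀ x, α x ^ p ^ i = ∑ k, c' k * μ (y' k * x)

/-! ### the field -/

-- deps:
def S_GENF : Prop := ∀ (p : ℕ) [Fact p.Prime] (O : Type) [AddCommGroup O] [Module ℤ_[p] O]
  [Module.Finite ℤ_[p] O] (C : Type) [NormedField C] [IsUltrametricDist C] [IsAlgClosed C]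
  [CharP C p] (μ : O → C), μ 0 = 1 → (∀ x y, μ (x + y) = μ x * μ y) → (∀ x, ‖μ x - 1‖ ≤ 1 / 2) →
  ∃ S : Subfield C, (∀ x, μ x ∈ S) ∧ (∀ a ∈ S, ∀ b : C, b ^ p = a → b ∈ S) ∧
    (∀ a : C, (∃ n, 0 < n ∧ a ^ (n + 1) = a) → a ∈ S) ∧ ((fun a : C => ‖a‖) '' (S : Set C)).Countable

-- deps:
def S_SPL : Prop := ∀ (p : ℕ) [Fact p.Prime] (C : Type) [NormedField C] [IsUltrametricDist C]
  [IsAlgClosed C] [CharP C p], Spl p (fun a : C => ‖a‖)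

-- deps:
def S_RHO : Prop := ∀ (V : Type) [Zero V] (nv : V → ℝ) (m : ℕ), 0 < m → (Set.range nv).Countable →
  (∀ a, a ≠ 0 → 0 < nv a) → ∃ s : ℝ, 0 < s ∧ s < 1 ∧ Gen nv (s ^ m)

-- deps: WIT WZP NORM DOM NMUL LL DENSE NJ ALG BET1 BET2 BET3 FROB NV1 NV2 APR EXT
def S_DV : Prop := ∀ (p : ℕ) [Fact p.Prime] (O : Type) [CommRing O] [IsDomain O] [Algebra ℤ_[p] O]
  [Module.Finite ℤ_[p] O] [Module.Free ℤ_[p] O] (V : Type) [CommRing V] [CharP V p]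
  [PerfectRing V p] (nv : V → ℝ) (μ : O → V) (s : ℝ), VA nv → Spl p nv → 0 < s → s < 1 →
  Gen nv (s ^ p ^ 2) → Ch nv μ → (∃ x, μ x ≠ 1) → ∀ (l : O →ₗ[ℤ_[p]] ℤ_[p]) (M : ℕ),
  ∃ (T : ℝ) (D c : V) (α : O → V), 1 < T ∧ D ≠ 0 ∧ nv c ≤ T * nv D ∧
    (∀ x, nv (D * ZMod.castHom (dvd_refl p) V (PadicInt.toZMod (l x)) - c * α x) ≤
      nv D * (T ^ M)⁻¹) ∧
    ∃ (i n' : ℕ) (c' : Fin n' → V) (y' : Fin n' → O), ∀ x, α x ^ p ^ i = ∑ k, c' k * μ (y' k * x)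

-- deps: GENF SPL RHO DV
def S_DPF : Prop := S_DP

end Pool.Agent.P.MP_7cb106_nt.BC
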